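import Pool.Agent.X308.V.Dom

/-!
# The small diagonal of a curve
-/

set_option autoImplicit false

open CategoryTheory AlgebraicGeometry

universe u v w

namespace Pool.Agent.X308.V

open Pool.Agent.H914 Pool.Agent.H914.VarClass Pool.Agent.H914.VarClass.Obj Pool.Agent.W492.BB
  Pool.Agent.W550.Corr Pool.Agent.TH133 Pool.Agent.TH829.Prime Pool.Agent.TH829.Kim
  Pool.Agent.Y148.BB

set_option linter.unusedSectionVars false

variable {k : Type u} [Field k] {𝒱 : VarClass k}

section chow

variable {C : TheoryData.{u, v, 0} 𝒱 ℚ} [hC : IsChowProj C] {T X Y Z W V U : 𝒱.Obj} {o : C.A T}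

/-- The modified small diagonal: the function `D(p, q) D(q, r) - D(p, r) o(q)`. -/
noncomputable def kap (o : C.A T) (p q r : W ⟶ T) : C.A W :=
  ev (oddProj C o) p q * ev (oddProj C o) q r - ev (oddProj C o) p r * C.pull q o

include hC

lemma pull_kap (o : C.A T) (p q r : W ⟶ T) (g : V ⟶ W) :
    C.pull g (kap o p q r) = kap o (g ≫ p) (g ≫ q) (g ≫ r) := by
  rw [kap, kap, map_sub, map_mul, map_mul, pull_ev, pull_ev, pull_ev, ← C.pull_comp]

lemma kap_symm (o : C.A T) (p q r : W ⟶ T) : kap o p q r = kap o r q p := by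
  rw [kap, kap, ev_odd_symm o p q, ev_odd_symm o q r, ev_odd_symm o p r, mul_comm (ev _ q p)]

/-- `D(x, y) o(x) = 0`. -/
lemma ev_mul_fst (hd : IsDom C) (hP : CurveProperties C) (hT : T.dim = 1) (ho : C.Deg 1 o)
    (h1 : HasDegree C o 1) (x y : W ⟶ T) : ev (oddProj C o) x y * C.pull x o = 0 := by
  have hz : oddProj C o * C.pull (fst T T) o = 0 := by
    have e0 : o * o = 0 := hC.gr_top T (1 + 1) _ (C.mul_mem ho ho) (by rw [hT]; norm_num)
    have e1 : dg C T * C.pull (fst T T) o = C.push (Obj.lift (𝟙 T) (𝟙 T)) o := by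
      have e1 : Obj.lift (𝟙 T) (𝟙 T) ≫ fst T T = 𝟙 T := by simp
      rw [dg, TheoryData.graph, ← C.proj_right, ← C.pull_comp, e1, C.pull_id, one_mul]
    have e2 : C.ext o (1 : C.A T) * C.pull (fst T T) o = 0 := by
      rw [TheoryData.ext, map_one, mul_one, ← map_mul, e0, map_zero]
    have e3 : C.ext (1 : C.A T) o * C.pull (fst T T) o = C.ext o o := by
      rw [TheoryData.ext, map_one, one_mul, mul_comm]
      rfl
    have hdeg : HasDegree C (oddProj C o * C.pull (fst T T) o) 0 := by
      rw [oddProj, sub_mul, sub_mul, e1, e2, e3, sub_zero, sub_eq_add_neg, ← neg_one_smul ℚ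
        (C.ext o o)]
      have h2 := HasDegree.add (hasDegree_push (Obj.lift (𝟙 T) (𝟙 T)) h1)
        (HasDegree.smul (-1) (hasDegree_ext h1 h1))
      norm_num at h2
      simpa using h2
    refine zero_cycle hd hP ?_ hdeg
    have h3 := C.mul_mem (odd_mem hT ho) (C.pull_mem (fst T T) ho)
    have e4 : (T.dim : ℤ) + 1 = (T.prod T).dim := by rw [dim_prod, hT]; norm_num
    rwa [e4] at h3
  have h := congrArg (C.pull (Obj.lift x y)) hz
  rw [map_mul, ← C.pull_comp, lift_fst, map_zero] at h
  exact h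

lemma ev_mul_snd (hd : IsDom C) (hP : CurveProperties C) (hT : T.dim = 1) (ho : C.Deg 1 o)
    (h1 : HasDegree C o 1) (x y : W ⟶ T) : ev (oddProj C o) x y * C.pull y o = 0 := by
  rw [ev_odd_symm, ev_mul_fst hd hP hT ho h1]

/-- `∫ D(s, q) D(s, x) = D(x, q)`. -/
lemma push_odd_odd (hT : T.dim = 1) (ho : C.Deg 1 o)
    (h1 : HasDegree C o 1) (q x : W ⟶ T) :
    C.push (fst W T) (ev (oddProj C o) (snd W T) (fst W T ≫ q) *
      ev (oddProj C o) (snd W T) (fst W T ≫ x)) = ev (oddProj C o) x q := by
  have h := ev_comp (oddProj C o) (oddProj C o) x q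
  rw [odd_odd hT ho h1] at h
  rw [h, ev_odd_symm o (fst W T ≫ x), mul_comm]

/-- The function `κ` is stable in the first variable. -/
lemma kap_stable1 (hT : T.dim = 1) (ho : C.Deg 1 o) (h1 : HasDegree C o 1) (q r : W ⟶ T) :
    Stable (oddProj C o) (kap o (snd W T) (fst W T ≫ q) (fst W T ≫ r)) := by
  intro x
  rw [rv, pull_kap, lift_snd, ← Category.assoc, ← Category.assoc, lift_fst, Category.id_comp,
    Category.id_comp, rD]
  have e : kap o (snd W T) (fst W T ≫ q) (fst W T ≫ r) *
      ev (oddProj C o) (snd W T) (fst W T ≫ x) =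
      (ev (oddProj C o) (snd W T) (fst W T ≫ q) * ev (oddProj C o) (snd W T) (fst W T ≫ x)) *
        C.pull (fst W T) (ev (oddProj C o) q r) -
      (ev (oddProj C o) (snd W T) (fst W T ≫ r) * ev (oddProj C o) (snd W T) (fst W T ≫ x)) *
        C.pull (fst W T) (C.pull q o) := by
    rw [kap, pull_ev, C.pull_comp]
    ring
  rw [e, map_sub, C.proj_right, C.proj_right, push_odd_odd hT ho h1, push_odd_odd hT ho h1, kap]

lemma kap_stable3 (hT : T.dim = 1) (ho : C.Deg 1 o) (h1 : HasDegree C o 1) (p q : W ⟶ T) :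
    Stable (oddProj C o) (kap o (fst W T ≫ p) (fst W T ≫ q) (snd W T)) := by
  rw [kap_symm]
  exact kap_stable1 hT ho h1 q p

lemma kap_stable2 (hd : IsDom C) (hP : CurveProperties C) (hT : T.dim = 1) (ho : C.Deg 1 o)
    (h1 : HasDegree C o 1) (p r : W ⟶ T) :
    Stable (oddProj C o) (kap o (fst W T ≫ p) (snd W T) (fst W T ≫ r)) := by
  intro x
  rw [rv, pull_kap, lift_snd, ← Category.assoc, ← Category.assoc, lift_fst, Category.id_comp,
    Category.id_comp, rD]
  have hz := ev_mul_fst hd hP hT ho h1 (snd W T) (fst W T ≫ r)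
  have hz' := ev_mul_fst hd hP hT ho h1 (snd W T) (fst W T ≫ x)
  have e : kap o (fst W T ≫ p) (snd W T) (fst W T ≫ r) *
      ev (oddProj C o) (snd W T) (fst W T ≫ x) =
      (ev (oddProj C o) (fst W T ≫ p) (snd W T) * ev (oddProj C o) (snd W T) (fst W T ≫ r)) *
        ev (dg C T) (snd W T) (fst W T ≫ x) -
      (ev (oddProj C o) (snd W T) (fst W T ≫ r) * ev (oddProj C o) (snd W T) (fst W T ≫ p)) *
        C.pull (fst W T) (C.pull x o) := by
    rw [kap, ev_odd_symm o (fst W T ≫ p) (snd W T), ← C.pull_comp]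
    have e1 : ev (dg C T) (snd W T) (fst W T ≫ x) = ev (oddProj C o) (snd W T) (fst W T ≫ x) +
        C.pull (snd W T) o + C.pull (fst W T ≫ x) o := by
      rw [ev_odd]; ring
    rw [e1]
    generalize ev (oddProj C o) (snd W T) (fst W T ≫ p) = a at *
    generalize ev (oddProj C o) (snd W T) (fst W T ≫ r) = b at *
    generalize ev (oddProj C o) (snd W T) (fst W T ≫ x) = c at *
    generalize ev (oddProj C o) (fst W T ≫ p) (fst W T ≫ r) = d at *
    generalize C.pull (snd W T) o = s at *
    generalize C.pull (fst W T ≫ x) o = t at *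
    linear_combination (-d) * hz' - a * hz
  rw [e, map_sub, push_dg, C.proj_right, push_odd_odd hT ho h1, rv, map_mul, pull_ev, pull_ev,
    lift_snd, ← Category.assoc, ← Category.assoc, lift_fst, Category.id_comp,
    Category.id_comp, kap]

/-- The product of `b ^ 3 + 1` values of `κ` vanishes. -/
lemma prod_kap (hd : IsDom C) (hP : CurveProperties C) (hT : T.dim = 1) (ho : C.Deg 1 o)
    (h1 : HasDegree C o 1) {b : ℕ} (hD : Dead C false (b + 1) (oddProj C o))
    (p q r : Fin (b * b * b + 1) → (W ⟶ T)) : ∏ i, kap o (p i) (q i) (r i) = 0 := by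
  let F : Equiv.Perm (Fin (b * b * b + 1)) → Equiv.Perm (Fin (b * b * b + 1)) →
    Equiv.Perm (Fin (b * b * b + 1)) → C.A W :=
    fun σ τ μ => ∏ i, kap o (p (σ i)) (q (τ i)) (r (μ i))
  have hinv : ∀ π σ τ μ : Equiv.Perm (Fin (b * b * b + 1)),
      F (σ * π) (τ * π) (μ * π) = F σ τ μ := by
    intro π σ τ μ
    exact Equiv.prod_comp π (fun i => kap o (p (σ i)) (q (τ i)) (r (μ i)))
  have hF : F ∈ symFree (C.A W) b := by
    intro B hB σ τ μ
    have split : ∀ f : Fin (b * b * b + 1) → C.A W, ∏ i, f i = (∏ i ∈ B, f i) * ∏ i ∈ Bᶜ, f i :=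
      fun f => (Finset.prod_mul_prod_compl B f).symm
    refine ⟨?_, ?_, ?_⟩
    · have h2 : ∀ π ∈ supp B, F (σ * π) τ μ = (sg false π • ∏ i ∈ B, rv (kap o (snd W T)
          (fst W T ≫ q (τ i)) (fst W T ≫ r (μ i))) (p (σ (π i)))) *
          ∏ i ∈ Bᶜ, kap o (p (σ i)) (q (τ i)) (r (μ i)) := by
        intro π hπ
        rw [mem_supp] at hπ
        simp only [F]
        rw [split, sg_false, one_smul]
        congr 1
        · apply Finset.prod_congr rfl
          intro i _
          rw [rv, pull_kap, lift_snd, ← Category.assoc, ← Category.assoc, lift_fst,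
            Category.id_comp, Category.id_comp]
          rfl
        · apply Finset.prod_congr rfl
          intro i hi
          rw [Equiv.Perm.mul_apply, hπ i (Finset.mem_compl.1 hi)]
      rw [Finset.sum_congr rfl h2, ← Finset.sum_mul, supp_stable hD B hB _
        (fun i => kap_stable1 hT ho h1 _ _) (fun i => p (σ i)), zero_mul]
    · have h2 : ∀ π ∈ supp B, F σ (τ * π) μ = (sg false π • ∏ i ∈ B, rv (kap o
          (fst W T ≫ p (σ i)) (snd W T) (fst W T ≫ r (μ i))) (q (τ (π i)))) *
          ∏ i ∈ Bᶜ, kap o (p (σ i)) (q (τ i)) (r (μ i)) := by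
        intro π hπ
        rw [mem_supp] at hπ
        simp only [F]
        rw [split, sg_false, one_smul]
        congr 1
        · apply Finset.prod_congr rfl
          intro i _
          rw [rv, pull_kap, lift_snd, ← Category.assoc, ← Category.assoc, lift_fst,
            Category.id_comp, Category.id_comp]
          rfl
        · apply Finset.prod_congr rfl
          intro i hi
          rw [Equiv.Perm.mul_apply, hπ i (Finset.mem_compl.1 hi)]
      rw [Finset.sum_congr rfl h2, ← Finset.sum_mul, supp_stable hD B hB _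
        (fun i => kap_stable2 hd hP hT ho h1 _ _) (fun i => q (τ i)), zero_mul]
    · have h2 : ∀ π ∈ supp B, F σ τ (μ * π) = (sg false π • ∏ i ∈ B, rv (kap o
          (fst W T ≫ p (σ i)) (fst W T ≫ q (τ i)) (snd W T)) (r (μ (π i)))) *
          ∏ i ∈ Bᶜ, kap o (p (σ i)) (q (τ i)) (r (μ i)) := by
        intro π hπ
        rw [mem_supp] at hπ
        simp only [F]
        rw [split, sg_false, one_smul]
        congr 1
        · apply Finset.prod_congr rfl
          intro i _
          rw [rv, pull_kap, lift_snd, ← Category.assoc, ← Category.assoc, lift_fst,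
            Category.id_comp, Category.id_comp]
          rfl
        · apply Finset.prod_congr rfl
          intro i hi
          rw [Equiv.Perm.mul_apply, hπ i (Finset.mem_compl.1 hi)]
      rw [Finset.sum_congr rfl h2, ← Finset.sum_mul, supp_stable hD B hB _
        (fun i => kap_stable3 hT ho h1 _ _) (fun i => r (μ i)), zero_mul]
  have h3 := triple_eq_zero b (by rw [Fintype.card_fin]; omega) F hinv hF
  have h4 := congrFun (congrFun (congrFun h3 1) 1) 1
  exact h4

/-- The modified small diagonal vanishes. -/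
lemma kap_eq_zero (hd : IsDom C) (hP : CurveProperties C) (hT : T.dim = 1) (ho : C.Deg 1 o)
    (h1 : HasDegree C o 1) (p q r : W ⟶ T) : kap o p q r = 0 := by
  obtain ⟨n, hn, h2⟩ := hP.odd T o hT ho h1
  obtain ⟨b, rfl⟩ := Nat.exists_eq_add_of_le' hn
  have hD := dead_of_symPower h2
  let c : C.A (T.prod (T.prod T)) := kap o (fst T (T.prod T)) (snd T (T.prod T) ≫ fst T T)
    (snd T (T.prod T) ≫ snd T T)
  have hc : c ∈ C.gr (T.prod (T.prod T)) 2 := by
    have h3 : ∀ x y : T.prod (T.prod T) ⟶ T, ev (oddProj C o) x y ∈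
        C.gr (T.prod (T.prod T)) 1 := by
      intro x y
      have h4 := ev_mem (odd_mem hT ho) x y
      rw [hT] at h4
      exact_mod_cast h4
    exact Submodule.sub_mem _ (C.mul_mem (i := 1) (j := 1) (h3 _ _) (h3 _ _))
      (C.mul_mem (i := 1) (j := 1) (h3 _ _) (C.pull_mem _ ho))
  have hc0 : c = 0 := by
    apply hd.eq_zero hc (b * b * b + 1)
    intro W u
    have h5 : ∀ i, C.pull (u i) c = kap o (u i ≫ fst T (T.prod T))
        (u i ≫ snd T (T.prod T) ≫ fst T T) (u i ≫ snd T (T.prod T) ≫ snd T T) := by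
      intro i
      exact pull_kap o _ _ _ _
    rw [Finset.prod_congr rfl (fun i _ => h5 i)]
    exact prod_kap hd hP hT ho h1 hD _ _ _
  have h6 := congrArg (C.pull (Obj.lift p (Obj.lift q r))) hc0
  rw [map_zero] at h6
  have h7 : C.pull (Obj.lift p (Obj.lift q r)) c = kap o p q r := by
    simp only [c]
    rw [pull_kap, lift_fst, ← Category.assoc, lift_snd, lift_fst, ← Category.assoc, lift_snd,
      lift_snd]
  rw [← h7, h6]

/-- The relation for the values of the diagonal. -/
lemma diag_rel (hd : IsDom C) (hP : CurveProperties C) (hT : T.dim = 1) (ho : C.Deg 1 o)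
    (h1 : HasDegree C o 1) (p q r : W ⟶ T) :
    ev (dg C T) p q * ev (dg C T) q r = ev (dg C T) p q * C.pull r o +
      ev (dg C T) q r * C.pull p o + ev (dg C T) p r * C.pull q o -
      C.pull p o * C.pull q o - C.pull p o * C.pull r o - C.pull q o * C.pull r o := by
  have h2 := kap_eq_zero hd hP hT ho h1 p q r
  have h3 := ev_mul_snd hd hP hT ho h1 p q
  have h4 := ev_mul_fst hd hP hT ho h1 q r
  rw [kap, ev_odd, ev_odd, ev_odd] at h2
  rw [ev_odd] at h3 h4
  have e0 : C.pull q o * C.pull q o = 0 := by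
    have e0 : o * o = 0 := hC.gr_top T (1 + 1) _ (C.mul_mem ho ho) (by rw [hT]; norm_num)
    rw [← map_mul, e0, map_zero]
  generalize ev (dg C T) p q = a at *
  generalize ev (dg C T) q r = b at *
  generalize ev (dg C T) p r = c at *
  generalize C.pull p o = x at *
  generalize C.pull q o = y at *
  generalize C.pull r o = z at *
  linear_combination h2 + h3 + h4 + e0

end chow

end Pool.Agent.X308.V
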