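import Pool.Agent.TH829.Kim.Defs
import Pool.Agent.Y148.BB.Defs

/-!
# One-cycles on products: definitions
-/

set_option autoImplicit false

open CategoryTheory AlgebraicGeometry

universe u v w

namespace Pool.Agent.X308.V

open Pool.Agent.H914 Pool.Agent.H914.VarClass Pool.Agent.H914.VarClass.Obj Pool.Agent.W492.BB
  Pool.Agent.W550.Corr Pool.Agent.TH133 Pool.Agent.TH829.Prime Pool.Agent.TH829.Kim
  Pool.Agent.Y148.BB

variable {k : Type u} [Field k] {𝒱 : VarClass k}

/-- The formal properties of the Chow groups which concern curves: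

* a zero-cycle of degree zero is algebraically trivial;
* the group of one-cycles is generated by the push-forwards of the fundamental classes of (smooth
  projective) curves;
* the motive `h^1(T)` of a curve `T` is oddly finite-dimensional (Kimura). -/
structure CurveProperties (C : TheoryData.{u, v, 0} 𝒱 ℚ) : Prop where
  zero_cycles : ∀ (X : 𝒱.Obj) (x : C.A X), C.Deg X.dim x → HasDegree C x 0 →
    x ∈ algPower C X 1 X.dim
  one_cycles : ∀ (X : 𝒱.Obj) (x : C.A X), C.Deg ((X.dim : ℤ) - 1) x →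
    x ∈ Submodule.span ℚ {c | ∃ (T : 𝒱.Obj) (f : T ⟶ X), T.dim = 1 ∧ c = C.down f 1}
  odd : ∀ (T : 𝒱.Obj) (o : C.A T), T.dim = 1 → C.Deg 1 o → HasDegree C o 1 →
    ∃ n : ℕ, 1 ≤ n ∧ ∀ (W : 𝒱.Obj) (x y : Fin n → (W ⟶ T)),
      symPower C (oddProj C o) x y = 0

/-- The variety `P`, with the morphisms `pr i : P ⟶ X i`, is the product of the varieties `X i`. -/
structure IsProduct {n : ℕ} {X : Fin n → 𝒱.Obj} {P : 𝒱.Obj} (pr : ∀ i, P ⟶ X i) : Prop where
  exists_lift : ∀ (W : 𝒱.Obj) (f : ∀ i, W ⟶ X i), ∃ g : W ⟶ P, ∀ i, g ≫ pr i = f i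
  ext : ∀ (W : 𝒱.Obj) (f g : W ⟶ P), (∀ i, f ≫ pr i = g ≫ pr i) → f = g

/-- The conjecture of Voevodsky for the one-cycles on `X`: numerically trivial one-cycles on `X` are
smash-nilpotent. -/
def VoevodskyOne (C : TheoryData.{u, v, 0} 𝒱 ℚ) (X : 𝒱.Obj) : Prop :=
  ∀ a : C.A X, C.Deg ((X.dim : ℤ) - 1) a → NumTrivial C ((X.dim : ℤ) - 1) a → SmashNilpotent C a

end Pool.Agent.X308.V
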