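import Pool.Agent.X308.V.Rows
import Pool.Agent.Y148.BB.Corr
import Pool.Agent.TH829.Kim.Defs
import Pool.Agent.X308.V.Defs

/-!
# Theories in which products are not zero; zero-cycles
-/

set_option autoImplicit false

open CategoryTheory AlgebraicGeometry

universe u v w

namespace Pool.Agent.X308.V

open Pool.Agent.H914 Pool.Agent.H914.VarClass Pool.Agent.H914.VarClass.Obj Pool.Agent.W492.BB
  Pool.Agent.W550.Corr Pool.Agent.TH133 Pool.Agent.TH829.Prime Pool.Agent.TH829.Kim
  Pool.Agent.Y148.BB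

set_option linter.unusedSectionVars false

variable {k : Type u} [Field k] {𝒱 : VarClass k}

/-- A theory in which no fundamental class is zero and in which the external product of two
homogeneous classes is zero only if one of them is. -/
structure IsDom (C : TheoryData.{u, v, 0} 𝒱 ℚ) : Prop where
  one_ne : ∀ X : 𝒱.Obj, (1 : C.A X) ≠ 0
  prime : ∀ {X Y : 𝒱.Obj} {i j : ℤ} {x : C.A X} {y : C.A Y}, C.Deg i x → C.Deg j y →
    C.ext x y = 0 → x = 0 ∨ y = 0

section chow

variable {C : TheoryData.{u, v, 0} 𝒱 ℚ} [hC : IsChowProj C] {T X Y Z W V U : 𝒱.Obj}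

include hC

/-- The exchange of the last two factors of `(W × T) × Y`. -/
noncomputable def rho' (W T Y : 𝒱.Obj) : (W.prod T).prod Y ⟶ (W.prod Y).prod T :=
  Obj.lift (Obj.lift (fst (W.prod T) Y ≫ fst W T) (snd (W.prod T) Y))
    (fst (W.prod T) Y ≫ snd W T)

omit hC in
lemma rho'_rho' (W T Y : 𝒱.Obj) : rho' W T Y ≫ rho' W Y T = 𝟙 _ := by
  apply prod_ext
  · apply prod_ext <;> simp [rho', comp_lift]
  · simp [rho', comp_lift]

/-- The value of a composition. -/
lemma rv_comp (r : C.A (W.prod T)) (D : C.A (T.prod Y)) (x : W ⟶ Y) :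
    rv (C.comp r D) x = C.push (fst W T) (r * C.pull (Obj.lift (snd W T) (fst W T ≫ x)) D) := by
  have e1 : t13 W T Y = rho' W T Y ≫ fst (W.prod Y) T := by
    apply prod_ext <;> simp [rho', comp_lift]
  have e2 : (prodMap (Obj.lift (𝟙 W) x) (𝟙 T) ≫ rho' W Y T) ≫ t23 W T Y =
      Obj.lift (snd W T) (fst W T ≫ x) := by
    apply prod_ext <;> simp [rho', comp_lift]
  have e3 : (prodMap (Obj.lift (𝟙 W) x) (𝟙 T) ≫ rho' W Y T) ≫ fst (W.prod T) Y = 𝟙 _ := by
    apply prod_ext <;> simp [rho', comp_lift]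
  rw [rv, TheoryData.comp, e1, C.push_comp, ← pull_iso C (rho' W Y T) (rho' W T Y)
    (rho'_rho' W Y T) (rho'_rho' W T Y), base_pull, ← C.pull_comp, map_mul, ← C.pull_comp,
    ← C.pull_comp, e2, e3, C.pull_id, ch_comm C]

lemma rv_comp' (r : C.A (W.prod T)) (D : C.A (T.prod T)) (x : W ⟶ T) :
    rv (C.comp r D) x = rD D r x := rv_comp r D x

lemma stable_of_comp {D : C.A (T.prod T)} {r : C.A (W.prod T)} (h : C.comp r D = r) :
    Stable D r := fun x => by rw [← rv_comp', h]

/-- Substitution. -/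
lemma push_dg (F : C.A (W.prod T)) (x : W ⟶ T) :
    C.push (fst W T) (F * ev (dg C T) (snd W T) (fst W T ≫ x)) = rv F x := by
  have h := rv_comp F (dg C T) x
  rw [comp_dg] at h
  exact h.symm

lemma ev_tp (D : C.A (T.prod T)) (x y : W ⟶ T) : ev (tp C D) x y = ev D y x := by
  rw [ev, tp, ← C.pull_comp, ev]
  congr 2
  apply prod_ext <;> simp [sw, comp_lift]

lemma ev_dg_mul (x y : W ⟶ T) (c : C.A T) :
    ev (dg C T) x y * C.pull x c = ev (dg C T) x y * C.pull y c := by
  have h : dg C T * C.pull (fst T T) c = dg C T * C.pull (snd T T) c := by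
    have e1 : Obj.lift (𝟙 T) (𝟙 T) ≫ fst T T = 𝟙 T := by simp
    have e2 : Obj.lift (𝟙 T) (𝟙 T) ≫ snd T T = 𝟙 T := by simp
    rw [dg, TheoryData.graph, ← C.proj_right, ← C.proj_right, ← C.pull_comp, ← C.pull_comp, e1, e2]
  have h' := congrArg (C.pull (Obj.lift x y)) h
  rw [map_mul, map_mul, ← C.pull_comp, ← C.pull_comp, lift_fst, lift_snd] at h'
  exact h'

lemma ev_odd (o : C.A T) (x y : W ⟶ T) :
    ev (oddProj C o) x y = ev (dg C T) x y - C.pull x o - C.pull y o := by
  rw [oddProj, ev, map_sub, map_sub, TheoryData.ext, TheoryData.ext, map_mul, map_mul, map_one,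
    map_one, map_one, map_one, one_mul, mul_one, ← C.pull_comp, ← C.pull_comp, lift_fst, lift_snd]
  rfl

lemma ev_odd_symm (o : C.A T) (x y : W ⟶ T) :
    ev (oddProj C o) x y = ev (oddProj C o) y x := by
  rw [← ev_tp, tp_odd]

omit hC in
/-- The degrees of products. -/
lemma prod_mem_gr [IsChowProj C] {ι : Type*} (s : Finset ι) (f : ι → C.A W) (e : ℤ)
    (h : ∀ i ∈ s, f i ∈ C.gr W e) : ∏ i ∈ s, f i ∈ C.gr W ((s.card : ℤ) * e) := by
  classical
  induction s using Finset.induction_on with
  | empty =>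
    rw [Finset.prod_empty, Finset.card_empty, Nat.cast_zero, zero_mul]
    exact C.one_mem W
  | insert i s hi ih =>
    rw [Finset.prod_insert hi, Finset.card_insert_of_notMem hi]
    have e1 : ((s.card + 1 : ℕ) : ℤ) * e = e + (s.card : ℤ) * e := by push_cast; ring
    rw [e1]
    exact C.mul_mem (h i (Finset.mem_insert_self i s))
      (ih fun j hj => h j (Finset.mem_insert_of_mem hj))

/-- A class all of whose exterior powers of some order vanish is zero. -/
lemma IsDom.eq_zero (hd : IsDom C) {c : C.A U} {e : ℤ} (hc : c ∈ C.gr U e) (N : ℕ)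
    (h : ∀ (W : 𝒱.Obj) (p : Fin N → (W ⟶ U)), ∏ i, C.pull (p i) c = 0) : c = 0 := by
  induction N with
  | zero =>
    exfalso
    have := h U (fun _ => 𝟙 U)
    rw [Finset.univ_eq_empty, Finset.prod_empty] at this
    exact hd.one_ne U this
  | succ N ih =>
    by_contra hne
    apply hne
    apply ih
    intro W p
    have h1 := h (U.prod W) (Fin.cons (fst U W) (fun i => snd U W ≫ p i))
    rw [Fin.prod_univ_succ, Fin.cons_zero] at h1
    simp only [Fin.cons_succ, C.pull_comp] at h1
    rw [← map_prod] at h1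
    have h2 : (∏ i, C.pull (p i) c : C.A W) ∈ C.gr W ((Finset.univ : Finset (Fin N)).card * e) :=
      prod_mem_gr _ _ e (fun i _ => C.pull_mem _ hc)
    exact (hd.prime hc h2 h1).resolve_left hne

lemma dead_of_symPower {D : C.A (T.prod T)} {n : ℕ}
    (h : ∀ (W : 𝒱.Obj) (x y : Fin n → (W ⟶ T)), symPower C D x y = 0) : Dead C false n D := by
  intro W p x
  rw [← h W p x, symPower]
  apply Finset.sum_congr rfl
  intro π _
  rw [sg_false, one_smul, List.prod_ofFn]
  rfl

lemma dead_of_altPower {D : C.A (T.prod T)} {n : ℕ}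
    (h : ∀ (W : 𝒱.Obj) (x y : Fin n → (W ⟶ T)), altPower C D x y = 0) : Dead C true n D := by
  intro W p x
  rw [← h W p x, altPower]
  apply Finset.sum_congr rfl
  intro π _
  rw [List.prod_ofFn, ← Int.cast_smul_eq_zsmul ℚ]
  rfl

/-- Zero-cycles of degree zero on curves. -/
lemma zero_cycle_curve (hd : IsDom C) (hP : CurveProperties C) (hT : T.dim = 1) {c : C.A T}
    (hc : C.Deg 1 c) (h0 : HasDegree C c 0) : c = 0 := by
  obtain ⟨o, ho, h1, h2⟩ := hC.exists_deg_one T
  have hod : HasDegree C o 1 := fun Y => by rw [one_smul]; exact ⟨h2 Y, h1 Y⟩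
  have ho1 : C.Deg 1 o := by
    have := ho
    rw [hT] at this
    exact_mod_cast this
  obtain ⟨n, -, hn⟩ := hP.odd T o hT ho1 hod
  have hdead := dead_of_symPower hn
  have hact : C.act (oddProj C o) c = c := by
    rw [oddProj, TheoryData.act_sub, TheoryData.act_sub, act_dg, act_ext' (q := 0), act_ext'
      (q := 0), zero_smul, zero_smul, sub_zero, sub_zero]
    · rwa [one_mul]
    · exact hasDegree_of_ne (i := 1 + 1) (C.mul_mem ho1 hc) (by rw [hT]; norm_num)
  have hst : ∀ W : 𝒱.Obj, Stable (oddProj C o) (C.pull (snd W T) c) := by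
    intro W
    apply stable_of_comp
    have e : C.pull (snd W T) c = C.ext (1 : C.A W) c := by
      rw [TheoryData.ext, map_one, one_mul]
    rw [e, ext_comp, hact]
  apply hd.eq_zero hc n
  intro W p
  have h3 := rows_stable (J := Fin n) false (oddProj C o) hdead
    (fun _ => C.pull (snd W T) c) (fun _ => hst W) p
  have h4 : ∀ π : Equiv.Perm (Fin n), sg false π •
      ∏ j, rv (C.pull (snd W T) c) (p (π j)) = ∏ i, C.pull (p i) c := by
    intro π
    rw [sg_false, one_smul, ← Equiv.prod_comp π (fun j => C.pull (p j) c)]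
    apply Finset.prod_congr rfl
    intro j _
    rw [rv, ← C.pull_comp, lift_snd]
  rw [Finset.sum_congr rfl (fun π _ => h4 π), Finset.sum_const, ← Nat.cast_smul_eq_nsmul ℚ] at h3
  refine (smul_eq_zero.1 h3).resolve_left ?_
  rw [Finset.card_univ]
  exact_mod_cast Fintype.card_ne_zero

/-- Zero-cycles of degree zero. -/
lemma zero_cycle (hd : IsDom C) (hP : CurveProperties C) {x : C.A X}
    (hx : C.Deg X.dim x) (h0 : HasDegree C x 0) : x = 0 := by
  have h := hP.zero_cycles X x hx h0
  have h1 : algPower C X 1 X.dim = ⊥ := by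
    unfold algPower
    rw [Submodule.span_eq_bot]
    rintro z ⟨Y, y, Γ, hy, -, rfl⟩
    have key : ∀ (s : ℕ) (Y : 𝒱.Obj) (y : C.A Y), CurveCycle C s Y y → s = 1 → y = 0 := by
      intro s Y y hy hs
      cases hy with
      | one T c hT hc hd' => exact zero_cycle_curve hd hP hT hc hd'
      | cons s T Y c y hT hc hd' hy =>
        exfalso
        have hs0 : s = 0 := by omega
        subst hs0
        cases hy
    rw [key 1 Y y hy rfl, TheoryData.act_map_zero]
  rw [h1, Submodule.mem_bot] at h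
  exact h

end chow

end Pool.Agent.X308.V
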