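import Pool.Agent.X308.V.Quot

/-!
# One-cycles on products of varieties
-/

set_option autoImplicit false

open CategoryTheory AlgebraicGeometry

universe u v w

namespace Pool.Agent.X308.V

open Pool.Agent.H914 Pool.Agent.H914.VarClass Pool.Agent.H914.VarClass.Obj Pool.Agent.W492.BB
  Pool.Agent.W550.Corr Pool.Agent.TH133 Pool.Agent.TH829.Prime Pool.Agent.TH829.Kim
  Pool.Agent.Y148.BB Pool.Agent.X308.Q

set_option linter.unusedSectionVars false

variable {k : Type u} [Field k] {𝒱 : VarClass k}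

section maps

/-- The product of a variety and of a product of varieties. -/
lemma IsProduct.cons {n : ℕ} {X : Fin (n + 1) → 𝒱.Obj} {Q : 𝒱.Obj}
    {q : ∀ i : Fin n, Q ⟶ X i.succ} (h : IsProduct q) :
    IsProduct (X := X) (P := (X 0).prod Q)
      (Fin.cases (fst (X 0) Q) (fun i => snd (X 0) Q ≫ q i)) where
  exists_lift W f := by
    obtain ⟨g, hg⟩ := h.exists_lift W (fun i => f i.succ)
    refine ⟨Obj.lift (f 0) g, fun i => ?_⟩
    refine Fin.cases ?_ (fun i => ?_) i
    · exact lift_fst _ _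
    · change Obj.lift (f 0) g ≫ snd (X 0) Q ≫ q i = f i.succ
      rw [lift_snd_assoc, hg]
  ext W f g h1 := by
    apply prod_ext
    · exact h1 0
    · apply h.ext
      intro i
      have h2 : f ≫ snd (X 0) Q ≫ q i = g ≫ snd (X 0) Q ≫ q i := h1 i.succ
      rwa [Category.assoc, Category.assoc]

lemma exists_product (n : ℕ) (X : Fin (n + 1) → 𝒱.Obj) :
    ∃ (P : 𝒱.Obj) (pr : ∀ i, P ⟶ X i), IsProduct pr := by
  induction n with
  | zero =>
    refine ⟨X 0, Fin.cases (𝟙 (X 0)) (fun i => i.elim0), ?_, ?_⟩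
    · intro W f
      refine ⟨f 0, fun i => ?_⟩
      refine Fin.cases ?_ (fun i => i.elim0) i
      exact Category.comp_id _
    · intro W f g h
      have h0 : f ≫ 𝟙 (X 0) = g ≫ 𝟙 (X 0) := h 0
      rwa [Category.comp_id, Category.comp_id] at h0
  | succ n ih =>
    obtain ⟨Q, q, hq⟩ := ih (fun i => X i.succ)
    exact ⟨_, _, hq.cons⟩

/-- Two products are isomorphic. -/
lemma IsProduct.iso {n : ℕ} {X : Fin n → 𝒱.Obj} {P Q : 𝒱.Obj} {pr : ∀ i, P ⟶ X i}
    {q : ∀ i, Q ⟶ X i} (h : IsProduct pr) (h' : IsProduct q) :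
    ∃ (g : P ⟶ Q) (g' : Q ⟶ P), g ≫ g' = 𝟙 P ∧ g' ≫ g = 𝟙 Q ∧ (∀ i, g ≫ q i = pr i) ∧
      ∀ i, g' ≫ pr i = q i := by
  obtain ⟨g, hg⟩ := h'.exists_lift P pr
  obtain ⟨g', hg'⟩ := h.exists_lift Q q
  refine ⟨g, g', h.ext _ _ _ fun i => ?_, h'.ext _ _ _ fun i => ?_, hg, hg'⟩
  · rw [Category.assoc, hg', hg, Category.id_comp]
  · rw [Category.assoc, hg, hg', Category.id_comp]

end maps

section chow

variable {C : TheoryData.{u, v, 0} 𝒱 ℚ} [hC : IsChowProj C] {X Y Z W V U : 𝒱.Obj}

include hC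

lemma push_mem_one (f : X ⟶ Y) {a : C.A X} (ha : C.Deg ((X.dim : ℤ) - 1) a) :
    C.Deg ((Y.dim : ℤ) - 1) (C.push f a) := by
  have h := C.push_mem f ha
  have e : (X.dim : ℤ) - 1 + 1 * ((Y.dim : ℤ) - X.dim) = Y.dim - 1 := by ring
  rwa [e] at h

/-- A one-cycle on a product is zero if its push-forwards to the products of two factors are. -/
theorem nfold (hd : IsDom C) (hP : CurveProperties C) (n : ℕ) :
    ∀ (X : Fin (n + 2) → 𝒱.Obj) (P : 𝒱.Obj) (pr : ∀ i, P ⟶ X i), IsProduct pr →
      ∀ a : C.A P, C.Deg ((P.dim : ℤ) - 1) a →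
        (∀ i j, i < j → C.push (Obj.lift (pr i) (pr j)) a = 0) → a = 0 := by
  induction n with
  | zero =>
    intro X P pr h a ha h0
    obtain ⟨Q, q, hq⟩ := exists_product 0 (fun i : Fin 1 => X i.succ)
    obtain ⟨g, hg⟩ := h.exists_lift ((X 0).prod (X 1))
      (Fin.cases (fst (X 0) (X 1)) (Fin.cases (snd (X 0) (X 1)) (fun i => i.elim0)))
    have e0 : g ≫ pr 0 = fst (X 0) (X 1) := hg 0
    have e1 : g ≫ pr 1 = snd (X 0) (X 1) := hg 1
    have e2 : Obj.lift (pr 0) (pr 1) ≫ g = 𝟙 P := by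
      apply h.ext
      intro i
      match i with
      | 0 => rw [Category.assoc, e0, lift_fst, Category.id_comp]
      | 1 => rw [Category.assoc, e1, lift_snd, Category.id_comp]
    have h1 := h0 0 1 (by decide)
    rw [← C.push_id a, ← e2, C.push_comp, h1, map_zero]
  | succ n ih =>
    intro X P pr h a ha h0
    obtain ⟨Q, q, hq⟩ := exists_product n (fun i : Fin (n + 1) => X i.succ.succ)
    -- `P = X 0 × (X 1 × Q)`
    have hR : IsProduct (X := X) (P := (X 0).prod ((X 1).prod Q)) _ :=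
      (IsProduct.cons (X := fun i => X i.succ) hq).cons
    obtain ⟨g, g', h1, h2, h3, h4⟩ := h.iso hR
    have k0 : g ≫ fst (X 0) ((X 1).prod Q) = pr 0 := h3 0
    have k1 : g ≫ snd (X 0) ((X 1).prod Q) ≫ fst (X 1) Q = pr 1 := h3 1
    have k2 : ∀ i : Fin (n + 1), g ≫ snd (X 0) ((X 1).prod Q) ≫ snd (X 1) Q ≫ q i =
        pr i.succ.succ := fun i => h3 i.succ.succ
    have k3 : ∀ i : Fin (n + 1), g ≫ u13 (X 0) (X 1) Q ≫ snd (X 0) Q ≫ q i =
        pr i.succ.succ := by
      intro i
      have e : u13 (X 0) (X 1) Q ≫ snd (X 0) Q ≫ q i =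
          snd (X 0) ((X 1).prod Q) ≫ snd (X 1) Q ≫ q i := by
        rw [← Category.assoc, u13_snd, Category.assoc]
      rw [e, k2]
    have hz : C.push g a = 0 := by
      apply three hd hP (push_mem_one g ha)
      · rw [← C.push_comp]
        have e : g ≫ u12 (X 0) (X 1) Q = Obj.lift (pr 0) (pr 1) := by
          apply prod_ext
          · simp [k0]
          · simp [k1]
        rw [e]
        exact h0 0 1 Fin.zero_lt_one
      · let X' : Fin (n + 2) → 𝒱.Obj := Fin.cases (X 0) (fun i => X i.succ.succ)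
        have hS : IsProduct (X := X') (P := (X 0).prod Q) _ := IsProduct.cons (X := X') (q := q) hq
        apply ih X' _ _ hS _ (push_mem_one _ (push_mem_one g ha))
        intro i j hij
        rw [← C.push_comp, ← C.push_comp]
        obtain ⟨j, rfl⟩ := Fin.exists_succ_eq.2 (Fin.ne_zero_of_lt hij)
        refine Fin.cases ?_ (fun i => ?_) i hij
        · intro _
          change C.push (g ≫ u13 (X 0) (X 1) Q ≫ Obj.lift (fst (X 0) Q) (snd (X 0) Q ≫ q j)) a = 0
          have e : g ≫ u13 (X 0) (X 1) Q ≫ Obj.lift (fst (X 0) Q) (snd (X 0) Q ≫ q j) =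
              Obj.lift (pr 0) (pr j.succ.succ) := by
            apply prod_ext
            · simp [k0]
            · simp [k3]
          rw [e]
          exact h0 0 j.succ.succ (Fin.succ_pos _)
        · intro hij'
          change C.push (g ≫ u13 (X 0) (X 1) Q ≫ Obj.lift (snd (X 0) Q ≫ q i)
            (snd (X 0) Q ≫ q j)) a = 0
          have e : g ≫ u13 (X 0) (X 1) Q ≫ Obj.lift (snd (X 0) Q ≫ q i) (snd (X 0) Q ≫ q j) =
              Obj.lift (pr i.succ.succ) (pr j.succ.succ) := by
            apply prod_ext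
            · simp [k3]
            · simp [k3]
          rw [e]
          apply h0
          exact Fin.succ_lt_succ_iff.2 hij'
      · have hS : IsProduct (X := fun i => X i.succ) (P := (X 1).prod Q) _ :=
          IsProduct.cons (X := fun i => X i.succ) (q := q) hq
        apply ih _ _ _ hS _ (push_mem_one _ (push_mem_one g ha))
        intro i j hij
        rw [← C.push_comp, ← C.push_comp]
        obtain ⟨j, rfl⟩ := Fin.exists_succ_eq.2 (Fin.ne_zero_of_lt hij)
        refine Fin.cases ?_ (fun i => ?_) i hij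
        · intro _
          change C.push (g ≫ snd (X 0) ((X 1).prod Q) ≫ Obj.lift (fst (X 1) Q)
            (snd (X 1) Q ≫ q j)) a = 0
          have e : g ≫ snd (X 0) ((X 1).prod Q) ≫ Obj.lift (fst (X 1) Q) (snd (X 1) Q ≫ q j) =
              Obj.lift (pr 1) (pr j.succ.succ) := by
            apply prod_ext
            · simp [k1]
            · simp [k2]
          rw [e]
          exact h0 1 j.succ.succ (by simp [Fin.lt_def])
        · intro hij'
          change C.push (g ≫ snd (X 0) ((X 1).prod Q) ≫ Obj.lift (snd (X 1) Q ≫ q i)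
            (snd (X 1) Q ≫ q j)) a = 0
          have e : g ≫ snd (X 0) ((X 1).prod Q) ≫ Obj.lift (snd (X 1) Q ≫ q i)
              (snd (X 1) Q ≫ q j) = Obj.lift (pr i.succ.succ) (pr j.succ.succ) := by
            apply prod_ext
            · simp [k2]
            · simp [k2]
          rw [e]
          apply h0
          exact Fin.succ_lt_succ_iff.2 hij'
    have h5 := congrArg (C.push g') hz
    rw [← C.push_comp, h1, C.push_id, map_zero] at h5
    exact h5

/-- One-cycles on products: smash-nilpotence. -/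
theorem smash_iff (hP : CurveProperties C) {n : ℕ} {X : Fin (n + 2) → 𝒱.Obj} {P : 𝒱.Obj}
    {pr : ∀ i, P ⟶ X i} (hpr : IsProduct pr) {a : C.A P} (ha : C.Deg ((P.dim : ℤ) - 1) a) :
    SmashNilpotent C a ↔
      ∀ i j, i < j → SmashNilpotent C (C.down (Obj.lift (pr i) (pr j)) a) := by
  constructor
  · intro h i j _
    rw [smashNilpotent_iff (push_mem_one _ ha)]
    intro I hI
    have h1 := hI.push_mem (Obj.lift (pr i) (pr j)) ((smashNilpotent_iff ha).1 h I hI)
    exact hI.congr (by ring) h1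
  · intro h
    rw [smashNilpotent_iff ha]
    intro I hI
    apply mem_of_qc (hI := hI.toIsAdequate) ha
    apply nfold (isDom_quo hI) (curveProperties_quo hI hP) n X P pr hpr _ (qc_mem _ ha)
    intro i j hij
    rw [qc_push]
    exact qc_of_mem _ ((smashNilpotent_iff (push_mem_one _ ha)).1 (h i j hij) I hI)

/-- The push-forward of a numerically trivial class. -/
lemma numTrivial_push (f : X ⟶ Y) {a : C.A X}
    (h : NumTrivial C ((X.dim : ℤ) - 1) a) : NumTrivial C ((Y.dim : ℤ) - 1) (C.push f a) := by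
  intro b hb
  have e : (Y.dim : ℤ) - ((Y.dim : ℤ) - 1) = X.dim - (X.dim - 1) := by ring
  rw [e] at hb
  have h1 := hasDegree_push f (h _ (C.pull_mem f hb))
  rw [TheoryData.mul, C.proj_right] at h1
  exact h1

theorem voevodsky_of_pairs (hP : CurveProperties C) {n : ℕ} {X : Fin (n + 2) → 𝒱.Obj} {P : 𝒱.Obj}
    {pr : ∀ i, P ⟶ X i} (hpr : IsProduct pr)
    (h : ∀ i j, i < j → VoevodskyOne C ((X i).prod (X j))) : VoevodskyOne C P := by
  intro a ha ha0
  rw [smash_iff hP hpr ha]
  intro i j hij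
  exact h i j hij _ (push_mem_one _ ha) (numTrivial_push _ ha0)

end chow

end Pool.Agent.X308.V
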