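import Mathlib

/-!
# Symmetrizers and antisymmetrizers generate the group algebra of a large symmetric group

If all symmetrizations over `b + 1` indices and all antisymmetrizations over `a + 1` indices vanish
on a representation of the permutations of more than `a b` indices, then the representation is zero.
-/

set_option autoImplicit false

namespace Pool.Agent.X308.V

open Equiv Finset

variable {ι : Type*} [Fintype ι] [DecidableEq ι]

/-- The permutations which fix all elements outside of `B`. -/
def supp (B : Finset ι) : Finset (Perm ι) := univ.filter (fun π => ∀ i, i ∉ B → π i = i)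

lemma mem_supp {B : Finset ι} {π : Perm ι} : π ∈ supp B ↔ ∀ i, i ∉ B → π i = i := by
  simp [supp]

lemma one_mem_supp (B : Finset ι) : (1 : Perm ι) ∈ supp B := mem_supp.2 fun _ _ => rfl

lemma mul_mem_supp {B : Finset ι} {π σ : Perm ι} (hπ : π ∈ supp B) (hσ : σ ∈ supp B) :
    π * σ ∈ supp B := by
  rw [mem_supp] at *
  intro i hi
  rw [Perm.mul_apply, hσ i hi, hπ i hi]

lemma inv_mem_supp {B : Finset ι} {π : Perm ι} (hπ : π ∈ supp B) : π⁻¹ ∈ supp B := by
  rw [mem_supp] at *
  intro i hi
  rw [Perm.inv_eq_iff_eq, hπ i hi]

lemma supp_mono {A B : Finset ι} (h : A ⊆ B) {π : Perm ι} (hπ : π ∈ supp A) : π ∈ supp B := by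
  rw [mem_supp] at *
  exact fun i hi => hπ i (fun h' => hi (h h'))

lemma supp_card_one {B : Finset ι} (h : B.card = 1) : supp B = {1} := by
  obtain ⟨c, rfl⟩ := card_eq_one.1 h
  ext π
  rw [mem_supp, mem_singleton]
  constructor
  · intro h
    ext i
    by_cases hi : i = c
    · subst hi
      by_contra hne
      have h1 : π i ∉ ({i} : Finset ι) := by
        rw [mem_singleton]
        exact hne
      have h2 := h _ h1
      exact hne (π.injective h2)
    · rw [h i (by simpa using hi)]
      rfl
  · rintro rfl i _
    rfl

lemma supp_comm {A B : Finset ι} (h : Disjoint A B) {π σ : Perm ι} (hπ : π ∈ supp A)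
    (hσ : σ ∈ supp B) : π * σ = σ * π := by
  rw [mem_supp] at *
  ext i
  rw [Perm.mul_apply, Perm.mul_apply]
  by_cases hA : i ∈ A
  · have hB : i ∉ B := disjoint_left.1 h hA
    rw [hσ i hB]
    have h1 : π i ∉ B := by
      intro h2
      have h3 : π i ∉ A := fun h4 => (disjoint_left.1 h h4) h2
      have h4 := π.injective (hπ _ h3)
      rw [h4] at h3
      exact h3 hA
    rw [hσ _ h1]
  · rw [hπ i hA]
    by_cases hB : i ∈ B
    · have h1 : σ i ∉ A := by
        intro h2
        have h3 : σ i ∉ B := fun h4 => (disjoint_left.1 h h2) h4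
        have h4 := σ.injective (hσ _ h3)
        rw [h4] at h3
        exact h3 hB
      rw [hπ _ h1]
    · rw [hσ i hB, hπ i hA]

section sums

variable {M : Type*} [AddCommGroup M]

lemma sum_supp_insert {B : Finset ι} {c : ι} (hc : c ∉ B) (f : Perm ι → M) :
    ∑ σ ∈ supp (insert c B), f σ = ∑ i ∈ insert c B, ∑ π ∈ supp B, f (swap i c * π) := by
  rw [← Finset.sum_product']
  refine Finset.sum_nbij' (fun σ => (σ c, swap (σ c) c * σ)) (fun p => swap p.1 c * p.2)
    ?_ ?_ ?_ ?_ ?_
  · intro σ hσ
    rw [mem_supp] at hσ
    have h1 : σ c ∈ insert c B := by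
      by_contra h
      have h2 := σ.injective (hσ _ h)
      rw [h2] at h
      exact h (mem_insert_self _ _)
    rw [mem_product]
    refine ⟨h1, mem_supp.2 fun i hi => ?_⟩
    change (swap (σ c) c) (σ i) = i
    by_cases hic : i = c
    · rw [hic, swap_apply_left]
    · have h2 : i ∉ insert c B := by
        rw [mem_insert]
        push Not
        exact ⟨hic, hi⟩
      rw [hσ i h2]
      apply swap_apply_of_ne_of_ne _ hic
      intro h3
      rw [h3] at h2
      exact h2 h1
  · rintro ⟨i, π⟩ hp
    rw [mem_product] at hp
    obtain ⟨h1, h2⟩ := hp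
    rw [mem_supp] at h2
    dsimp only at h1 h2 ⊢
    rw [mem_supp]
    intro j hj
    have hjB : j ∉ B := fun h => hj (mem_insert_of_mem h)
    rw [Perm.mul_apply, h2 j hjB]
    apply swap_apply_of_ne_of_ne
    · rintro rfl
      exact hj h1
    · rintro rfl
      exact hj (mem_insert_self _ _)
  · intro σ _
    dsimp only
    rw [← mul_assoc, swap_mul_self, one_mul]
  · rintro ⟨i, π⟩ hp
    rw [mem_product] at hp
    obtain ⟨_, h2⟩ := hp
    rw [mem_supp] at h2
    dsimp only at h2 ⊢
    have h3 : (swap i c * π) c = i := by
      rw [Perm.mul_apply, h2 c hc, swap_apply_right]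
    rw [h3, ← mul_assoc, swap_mul_self, one_mul]
  · intro σ _
    dsimp only
    rw [← mul_assoc, swap_mul_self, one_mul]

lemma sum_supp_inv (B : Finset ι) (f : Perm ι → M) :
    ∑ σ ∈ supp B, f σ⁻¹ = ∑ σ ∈ supp B, f σ :=
  Finset.sum_nbij' (fun σ => σ⁻¹) (fun σ => σ⁻¹) (fun _ h => inv_mem_supp h)
    (fun _ h => inv_mem_supp h) (fun σ _ => inv_inv σ) (fun σ _ => inv_inv σ) (fun _ _ => rfl)

lemma sum_supp_insert' {B : Finset ι} {c : ι} (hc : c ∉ B) (f : Perm ι → M) :
    ∑ σ ∈ supp (insert c B), f σ = ∑ i ∈ insert c B, ∑ π ∈ supp B, f (π * swap i c) := by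
  rw [← sum_supp_inv, sum_supp_insert hc]
  apply Finset.sum_congr rfl
  intro i _
  rw [← sum_supp_inv]
  apply Finset.sum_congr rfl
  intro π _
  rw [mul_inv_rev, inv_inv, swap_inv]

lemma sum_supp_mul {B : Finset ι} {μ : Perm ι} (hμ : μ ∈ supp B) (f : Perm ι → M) :
    ∑ σ ∈ supp B, f (μ * σ) = ∑ σ ∈ supp B, f σ :=
  Finset.sum_nbij' (fun σ => μ * σ) (fun σ => μ⁻¹ * σ) (fun _ h => mul_mem_supp hμ h)
    (fun _ h => mul_mem_supp (inv_mem_supp hμ) h) (fun σ _ => inv_mul_cancel_left μ σ)
    (fun σ _ => mul_inv_cancel_left μ σ) (fun _ _ => rfl)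

end sums

/-- The sign character (`s = true`) or the trivial character. -/
def sg (s : Bool) (π : Perm ι) : ℚ := if s then ((Perm.sign π : ℤ) : ℚ) else 1

lemma sg_mul (s : Bool) (π σ : Perm ι) : sg s (π * σ) = sg s π * sg s σ := by
  unfold sg
  split_ifs
  · rw [Perm.sign_mul]; push_cast; ring
  · ring

lemma sg_one (s : Bool) : sg s (1 : Perm ι) = 1 := by
  unfold sg; split_ifs <;> simp

lemma sg_inv (s : Bool) (π : Perm ι) : sg s π⁻¹ = sg s π := by
  unfold sg
  rw [Perm.sign_inv]

lemma sg_sq (s : Bool) (π : Perm ι) : sg s π * sg s π = 1 := by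
  have h : sg s (π⁻¹ * π) = 1 := by rw [inv_mul_cancel, sg_one]
  rwa [sg_mul, sg_inv] at h

lemma sg_swap_true {i j : ι} (h : i ≠ j) : sg true (swap i j) = -1 := by
  unfold sg
  rw [if_pos rfl, Perm.sign_swap h]
  simp

lemma sg_false (π : Perm ι) : sg false π = 1 := rfl

section rep

variable {M : Type*} [AddCommGroup M] [Module ℚ M] (ρ : Representation ℚ (Perm ι) M)

/-- The symmetrizer (`s = false`) or antisymmetrizer (`s = true`) over the indices in `B`. -/
def E (s : Bool) (B : Finset ι) (x : M) : M := ∑ π ∈ supp B, sg s π • ρ π x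

lemma E_card_one (s : Bool) {B : Finset ι} (h : B.card = 1) (x : M) : E ρ s B x = x := by
  rw [E, supp_card_one h, sum_singleton, sg_one, one_smul, map_one]
  rfl

/-- A representation of the permutations of the set `D` of more than `a b` elements, for which
the symmetrizers over `b + 1` elements and the antisymmetrizers over `a + 1` elements vanish, is
zero. -/
theorem eq_zero_of_E (b : ℕ) : ∀ (a : ℕ) (D : Finset ι), a * b < D.card → ∀ N : Submodule ℚ M,
    (∀ π ∈ supp D, ∀ x ∈ N, ρ π x ∈ N) →
    (∀ B ⊆ D, B.card = b + 1 → ∀ x ∈ N, E ρ false B x = 0) →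
    (∀ A ⊆ D, A.card = a + 1 → ∀ x ∈ N, E ρ true A x = 0) → ∀ x ∈ N, x = 0 := by
  induction b with
  | zero =>
    intro a D hD N _ hS _ x hx
    rw [mul_zero] at hD
    obtain ⟨c, hc⟩ := card_pos.1 hD
    have h := hS {c} (singleton_subset_iff.2 hc) (card_singleton c) x hx
    rwa [E_card_one ρ _ (card_singleton c)] at h
  | succ b ihb =>
    intro a
    induction a with
    | zero =>
      intro D hD N _ _ hA x hx
      rw [zero_mul] at hD
      obtain ⟨c, hc⟩ := card_pos.1 hD
      have h := hA {c} (singleton_subset_iff.2 hc) (card_singleton c) x hx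
      rwa [E_card_one ρ _ (card_singleton c)] at h
    | succ a iha =>
      intro D hD N hN hS hA
      -- the vectors invariant under the permutations of `b + 1` elements vanish
      have key : ∀ B ⊆ D, B.card = b + 1 → ∀ x ∈ N, (∀ π ∈ supp B, ρ π x = x) → x = 0 := by
        intro B hBD hB x hx hinv
        let N' : Submodule ℚ M :=
          { carrier := {x | x ∈ N ∧ ∀ π ∈ supp B, ρ π x = x}
            add_mem' := by
              rintro x y ⟨h1, h2⟩ ⟨h3, h4⟩
              refine ⟨N.add_mem h1 h3, fun π hπ => ?_⟩
              rw [map_add, h2 π hπ, h4 π hπ]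
            zero_mem' := ⟨N.zero_mem, fun π _ => map_zero _⟩
            smul_mem' := by
              rintro q x ⟨h1, h2⟩
              refine ⟨N.smul_mem q h1, fun π hπ => ?_⟩
              rw [map_smul, h2 π hπ] }
        have hdisj : Disjoint (D \ B) B := sdiff_disjoint
        -- the relation `T_c = -1`
        have hT : ∀ c ∈ D \ B, ∀ x ∈ N', ∑ i ∈ B, ρ (swap i c) x = - x := by
          intro c hc x hx
          rw [mem_sdiff] at hc
          have h1 := hS (insert c B) (insert_subset hc.1 hBD)
            (by rw [card_insert_of_notMem hc.2, hB]) x hx.1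
          rw [E, sum_supp_insert hc.2, sum_insert hc.2] at h1
          have h2 : ∀ i : ι, ∑ π ∈ supp B, sg false (swap i c * π) • ρ (swap i c * π) x =
              ((supp B).card : ℚ) • ρ (swap i c) x := by
            intro i
            rw [Nat.cast_smul_eq_nsmul, ← sum_const]
            apply Finset.sum_congr rfl
            intro π hπ
            rw [sg_false, one_smul, map_mul, Module.End.mul_apply, hx.2 π hπ]
          rw [h2, Finset.sum_congr rfl (fun i _ => h2 i), ← Finset.smul_sum, ← smul_add] at h1
          have h3 : ((supp B).card : ℚ) ≠ 0 := by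
            have : 0 < (supp B).card := card_pos.2 ⟨1, one_mem_supp B⟩
            positivity
          have h4 := (smul_eq_zero.1 h1).resolve_left h3
          rw [swap_self] at h4
          change ρ 1 x + _ = 0 at h4
          rw [map_one] at h4
          exact (neg_eq_of_add_eq_zero_right h4).symm
        refine iha (D \ B) ?_ N' ?_ ?_ ?_ x ⟨hx, hinv⟩
        · rw [card_sdiff_of_subset hBD, hB]
          have : (a + 1) * (b + 1) = a * (b + 1) + (b + 1) := by ring
          omega
        · intro π hπ x hx
          refine ⟨hN π (supp_mono sdiff_subset hπ) x hx.1, fun σ hσ => ?_⟩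
          rw [← Module.End.mul_apply, ← map_mul, ← supp_comm hdisj hπ hσ, map_mul,
            Module.End.mul_apply, hx.2 σ hσ]
        · intro B' hB' hc x hx
          exact hS B' (hB'.trans sdiff_subset) hc x hx.1
        · intro A hAD hAc x hx
          have hAB : Disjoint A B := disjoint_of_subset_left hAD hdisj
          have h1 : ∀ i ∈ B, E ρ true A x = ∑ c ∈ A, E ρ true A (ρ (swap i c) x) := by
            intro i hi
            have hiA : i ∉ A := fun h => (disjoint_left.1 hAB h) hi
            have h2 := hA (insert i A) (insert_subset (hBD hi) (hAD.trans sdiff_subset))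
              (by rw [card_insert_of_notMem hiA, hAc]) x hx.1
            rw [E, sum_supp_insert' hiA, sum_insert hiA, swap_self] at h2
            have h3 : ∀ c ∈ A, ∑ π ∈ supp A, sg true (π * swap c i) • ρ (π * swap c i) x =
                - E ρ true A (ρ (swap i c) x) := by
              intro c hc
              have hci : c ≠ i := fun h => hiA (h ▸ hc)
              rw [E, ← Finset.sum_neg_distrib]
              apply Finset.sum_congr rfl
              intro π _
              rw [sg_mul, sg_swap_true hci, map_mul, Module.End.mul_apply, swap_comm c i]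
              rw [mul_neg_one, neg_smul]
            rw [Finset.sum_congr rfl h3, Finset.sum_neg_distrib] at h2
            have h4 : ∑ π ∈ supp A, sg true (π * Equiv.refl ι) • ρ (π * Equiv.refl ι) x =
                E ρ true A x := rfl
            rw [h4] at h2
            exact (sub_eq_zero.1 (by rw [sub_eq_add_neg]; exact h2))
          have h5 : ((b + 1 : ℕ) : ℚ) • E ρ true A x = - (((a + 1 : ℕ) : ℚ) • E ρ true A x) := by
            calc ((b + 1 : ℕ) : ℚ) • E ρ true A x = ∑ i ∈ B, E ρ true A x := by
                  rw [sum_const, hB, Nat.cast_smul_eq_nsmul]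
              _ = ∑ i ∈ B, ∑ c ∈ A, E ρ true A (ρ (swap i c) x) := Finset.sum_congr rfl h1
              _ = ∑ c ∈ A, E ρ true A (∑ i ∈ B, ρ (swap i c) x) := by
                  rw [Finset.sum_comm]
                  apply Finset.sum_congr rfl
                  intro c _
                  unfold E
                  rw [Finset.sum_comm]
                  apply Finset.sum_congr rfl
                  intro π _
                  rw [map_sum, Finset.smul_sum]
              _ = ∑ c ∈ A, - E ρ true A x := by
                  apply Finset.sum_congr rfl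
                  intro c hc
                  rw [hT c (hAD hc) x hx]
                  unfold E
                  rw [← Finset.sum_neg_distrib]
                  apply Finset.sum_congr rfl
                  intro π _
                  rw [map_neg, smul_neg]
              _ = - (((a + 1 : ℕ) : ℚ) • E ρ true A x) := by
                  rw [sum_neg_distrib, sum_const, hAc, Nat.cast_smul_eq_nsmul]
          have h6 : (((b + 1 : ℕ) : ℚ) + ((a + 1 : ℕ) : ℚ)) • E ρ true A x = 0 := by
            rw [add_smul, h5, neg_add_cancel]
          exact (smul_eq_zero.1 h6).resolve_left (by positivity)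
      have hS' : ∀ B ⊆ D, B.card = b + 1 → ∀ x ∈ N, E ρ false B x = 0 := by
        intro B hBD hB x hx
        apply key B hBD hB
        · unfold E
          apply Submodule.sum_mem
          intro π hπ
          exact N.smul_mem _ (hN π (supp_mono hBD hπ) x hx)
        · intro π hπ
          unfold E
          rw [map_sum]
          have h1 : ∀ σ ∈ supp B, ρ π (sg false σ • ρ σ x) = sg false (π * σ) • ρ (π * σ) x := by
            intro σ _
            rw [map_smul, map_mul, Module.End.mul_apply]
            rfl
          rw [Finset.sum_congr rfl h1]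
          exact sum_supp_mul hπ (fun σ => sg false σ • ρ σ x)
      refine ihb (a + 1) D ?_ N hN hS' hA
      have : (a + 1) * (b + 1) = (a + 1) * b + (a + 1) := by ring
      omega

end rep

end Pool.Agent.X308.V
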