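import Pool.Agent.X308.V.Perm

/-!
# Functions on the product of three copies of a symmetric group

A function on the product of three copies of the permutations of more than `b ^ 3` indices which is
invariant under simultaneous translations, and whose symmetrizations over `b + 1` indices in each of
the three variables vanish, is zero. (The product of three odd objects of dimension `b` is an odd
object of dimension `b ^ 3`.)
-/

set_option autoImplicit false

namespace Pool.Agent.X308.V

open Equiv Finset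

variable {ι : Type*} [Fintype ι] [DecidableEq ι]

section funs

variable {M : Type*} [AddCommGroup M] [Module ℚ M]

/-- The left translations of functions on the symmetric group. -/
def lt (M : Type*) [AddCommGroup M] [Module ℚ M] : Representation ℚ (Perm ι) (Perm ι → M) where
  toFun g :=
    { toFun := fun F θ => F (g⁻¹ * θ)
      map_add' := fun _ _ => rfl
      map_smul' := fun _ _ => rfl }
  map_one' := by
    ext F θ
    simp
  map_mul' g h := by
    ext F θ
    simp [mul_assoc]

lemma lt_apply (g θ : Perm ι) (F : Perm ι → M) : lt M g F θ = F (g⁻¹ * θ) := rfl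

theorem fun_eq_zero (a b : ℕ) (A : Finset ι) (hA : a * b < A.card) (F : Perm ι → M)
    (hS : ∀ B ⊆ A, B.card = b + 1 → ∀ u ∈ supp A, ∀ v ∈ supp A,
      ∑ π ∈ supp B, sg false π • F (u * π * v) = 0)
    (hT : ∀ B ⊆ A, B.card = a + 1 → ∀ u ∈ supp A, ∀ v ∈ supp A,
      ∑ π ∈ supp B, sg true π • F (u * π * v) = 0) : ∀ θ ∈ supp A, F θ = 0 := by
  classical
  let N : Submodule ℚ (Perm ι → M) :=
    { carrier := {F | (∀ θ, θ ∉ supp A → F θ = 0) ∧
        (∀ B ⊆ A, B.card = b + 1 → ∀ u ∈ supp A, ∀ v ∈ supp A,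
          ∑ π ∈ supp B, sg false π • F (u * π * v) = 0) ∧
        (∀ B ⊆ A, B.card = a + 1 → ∀ u ∈ supp A, ∀ v ∈ supp A,
          ∑ π ∈ supp B, sg true π • F (u * π * v) = 0)}
      add_mem' := by
        rintro F G ⟨h1, h2, h3⟩ ⟨h4, h5, h6⟩
        refine ⟨fun θ hθ => ?_, fun B hB hc u hu v hv => ?_, fun B hB hc u hu v hv => ?_⟩
        · rw [Pi.add_apply, h1 θ hθ, h4 θ hθ, add_zero]
        · simp only [Pi.add_apply, smul_add, Finset.sum_add_distrib, h2 B hB hc u hu v hv,
            h5 B hB hc u hu v hv, add_zero]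
        · simp only [Pi.add_apply, smul_add, Finset.sum_add_distrib, h3 B hB hc u hu v hv,
            h6 B hB hc u hu v hv, add_zero]
      zero_mem' := by
        refine ⟨fun θ _ => rfl, fun B _ _ u _ v _ => ?_, fun B _ _ u _ v _ => ?_⟩
        · simp
        · simp
      smul_mem' := by
        rintro q F ⟨h1, h2, h3⟩
        refine ⟨fun θ hθ => ?_, fun B hB hc u hu v hv => ?_, fun B hB hc u hu v hv => ?_⟩
        · rw [Pi.smul_apply, h1 θ hθ, smul_zero]
        · simp only [Pi.smul_apply, smul_comm _ q, ← Finset.smul_sum, h2 B hB hc u hu v hv,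
            smul_zero]
        · simp only [Pi.smul_apply, smul_comm _ q, ← Finset.smul_sum, h3 B hB hc u hu v hv,
            smul_zero] }
  have hstab : ∀ π ∈ supp A, ∀ x ∈ N, lt M π x ∈ N := by
    rintro g hg F ⟨h1, h2, h3⟩
    refine ⟨fun θ hθ => ?_, fun B hB hc u hu v hv => ?_, fun B hB hc u hu v hv => ?_⟩
    · rw [lt_apply]
      apply h1
      intro h
      apply hθ
      have := mul_mem_supp hg h
      rwa [mul_inv_cancel_left] at this
    · have := h2 B hB hc (g⁻¹ * u) (mul_mem_supp (inv_mem_supp hg) hu) v hv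
      simp only [lt_apply]
      simpa only [mul_assoc] using this
    · have := h3 B hB hc (g⁻¹ * u) (mul_mem_supp (inv_mem_supp hg) hu) v hv
      simp only [lt_apply]
      simpa only [mul_assoc] using this
  have hE : ∀ (s : Bool) (B : Finset ι), B ⊆ A → ∀ G : Perm ι → M,
      (∀ θ, θ ∉ supp A → G θ = 0) →
      (∀ v ∈ supp A, ∑ π ∈ supp B, sg s π • G (1 * π * v) = 0) → E (lt M) s B G = 0 := by
    intro s B hB G h1 h2
    funext θ
    rw [E, Finset.sum_apply]
    simp only [Pi.smul_apply, lt_apply, Pi.zero_apply]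
    by_cases hθ : θ ∈ supp A
    · rw [← h2 θ hθ, ← sum_supp_inv]
      apply Finset.sum_congr rfl
      intro π _
      rw [sg_inv, inv_inv, one_mul]
    · apply Finset.sum_eq_zero
      intro π hπ
      rw [h1, smul_zero]
      intro h
      apply hθ
      have := mul_mem_supp (supp_mono hB hπ) h
      rwa [mul_inv_cancel_left] at this
  let F' : Perm ι → M := fun θ => if θ ∈ supp A then F θ else 0
  have hF' : F' ∈ N := by
    have hF1 : ∀ (s : Bool) (B : Finset ι), B ⊆ A → ∀ u ∈ supp A, ∀ v ∈ supp A,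
        ∑ π ∈ supp B, sg s π • F' (u * π * v) = ∑ π ∈ supp B, sg s π • F (u * π * v) := by
      intro s B hB u hu v hv
      apply Finset.sum_congr rfl
      intro π hπ
      have : u * π * v ∈ supp A := mul_mem_supp (mul_mem_supp hu (supp_mono hB hπ)) hv
      simp only [F', if_pos this]
    refine ⟨fun θ hθ => if_neg hθ, fun B hB hc u hu v hv => ?_, fun B hB hc u hu v hv => ?_⟩
    · rw [hF1 _ B hB u hu v hv]
      exact hS B hB hc u hu v hv
    · rw [hF1 _ B hB u hu v hv]
      exact hT B hB hc u hu v hv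
  have h0 := eq_zero_of_E (lt M) b a A hA N hstab
    (fun B hB hc x hx => hE false B hB x hx.1 (hx.2.1 B hB hc 1 (one_mem_supp A)))
    (fun B hB hc x hx => hE true B hB x hx.1 (hx.2.2 B hB hc 1 (one_mem_supp A))) F' hF'
  intro θ hθ
  have h1 := congrFun h0 θ
  simp only [F', if_pos hθ, Pi.zero_apply] at h1
  exact h1

end funs

section two

variable {M : Type*} [AddCommGroup M] [Module ℚ M] {ρ₁ ρ₂ : Representation ℚ (Perm ι) M}

lemma sg_xor (s t : Bool) (π : Perm ι) : sg (xor s t) π = sg s π * sg t π := by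
  cases s
  · rw [Bool.false_xor, sg_false, one_mul]
  · cases t
    · rw [Bool.xor_false, sg_false, mul_one]
    · rw [Bool.xor_self, sg_false, sg_sq]

theorem two_actions (hcomm : ∀ π σ x, ρ₁ π (ρ₂ σ x) = ρ₂ σ (ρ₁ π x)) (s t χ : Bool)
    (hst : s ≠ xor t χ) (a b : ℕ) (A : Finset ι) (hA : a * b < A.card) (N : Submodule ℚ M)
    (hN1 : ∀ π ∈ supp A, ∀ x ∈ N, ρ₁ π x ∈ N)
    (h1 : ∀ B ⊆ A, B.card = a + 1 → ∀ x ∈ N, E ρ₁ s B x = 0)
    (h2 : ∀ B ⊆ A, B.card = b + 1 → ∀ x ∈ N, E ρ₂ t B x = 0) (y : M) (hy : y ∈ N)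
    (hχ : ∀ π ∈ supp A, ρ₁ π (ρ₂ π y) = sg χ π • y) : y = 0 := by
  have hleft : ∀ B ⊆ A, B.card = a + 1 → ∀ u ∈ supp A, ∀ v ∈ supp A,
      ∑ π ∈ supp B, sg s π • (ρ₁ (u * π * v) y) = 0 := by
    intro B hB hc u hu v hv
    have h := h1 B hB hc (ρ₁ v y) (hN1 v hv y hy)
    have h' : ρ₁ u (E ρ₁ s B (ρ₁ v y)) = 0 := by rw [h, map_zero]
    rw [E, map_sum] at h'
    rw [← h']
    apply Finset.sum_congr rfl
    intro π _
    rw [map_smul, map_mul, map_mul]
    rfl
  have hinv : ∀ g ∈ supp A, ρ₁ g y = sg χ g • ρ₂ g⁻¹ y := by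
    intro g hg
    have h := congrArg (ρ₂ g⁻¹) (hχ g hg)
    rw [← hcomm, ← Module.End.mul_apply (ρ₂ g⁻¹), ← map_mul, inv_mul_cancel, map_one, map_smul] at h
    exact h
  have hright : ∀ B ⊆ A, B.card = b + 1 → ∀ u ∈ supp A, ∀ v ∈ supp A,
      ∑ π ∈ supp B, sg (xor t χ) π • (ρ₁ (u * π * v) y) = 0 := by
    intro B hB hc u hu v hv
    have h := h2 B hB hc y hy
    have h' : sg χ v • ρ₁ u (ρ₂ v⁻¹ (E ρ₂ t B y)) = 0 := by
      rw [h, map_zero, map_zero, smul_zero]
    rw [E, ← sum_supp_inv, map_sum, map_sum, Finset.smul_sum] at h'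
    rw [← h']
    apply Finset.sum_congr rfl
    intro π hπ
    have hπA := supp_mono hB hπ
    rw [mul_assoc, map_mul, Module.End.mul_apply, hinv _ (mul_mem_supp hπA hv), mul_inv_rev,
      map_mul ρ₂, Module.End.mul_apply, map_smul, map_smul, map_smul, smul_smul, smul_smul,
      sg_xor, sg_mul, sg_inv]
    congr 1
    have := sg_sq χ π
    calc sg t π * sg χ π * (sg χ π * sg χ v) = (sg χ π * sg χ π) * (sg t π * sg χ v) := by ring
      _ = sg χ v * sg t π := by rw [this]; ring
  have hfin : ∀ θ ∈ supp A, ρ₁ θ y = 0 := by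
    rcases Bool.eq_false_or_eq_true s with hs | hs
    · have hx : xor t χ = false := by
        rcases Bool.eq_false_or_eq_true (xor t χ) with h | h
        · exact absurd (hs.trans h.symm) hst
        · exact h
      rw [hs] at hleft
      rw [hx] at hright
      exact fun_eq_zero a b A hA (fun θ => ρ₁ θ y) hright hleft
    · have hx : xor t χ = true := by
        rcases Bool.eq_false_or_eq_true (xor t χ) with h | h
        · exact h
        · exact absurd (hs.trans h.symm) hst
      rw [hs] at hleft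
      rw [hx] at hright
      exact fun_eq_zero b a A (by rwa [mul_comm]) (fun θ => ρ₁ θ y) hleft hright
  have := hfin 1 (one_mem_supp A)
  rwa [map_one] at this

end two

section triple

variable {Q : Type*} [AddCommGroup Q] [Module ℚ Q]

/-- The translations in the first variable. -/
def r1 (Q : Type*) [AddCommGroup Q] [Module ℚ Q] :
    Representation ℚ (Perm ι) (Perm ι → Perm ι → Perm ι → Q) where
  toFun g :=
    { toFun := fun F σ τ μ => F (σ * g) τ μ
      map_add' := fun _ _ => rfl
      map_smul' := fun _ _ => rfl }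
  map_one' := by
    ext F
    simp
  map_mul' g h := by
    ext F
    simp [mul_assoc]

/-- The translations in the second variable. -/
def r2 (Q : Type*) [AddCommGroup Q] [Module ℚ Q] :
    Representation ℚ (Perm ι) (Perm ι → Perm ι → Perm ι → Q) where
  toFun g :=
    { toFun := fun F σ τ μ => F σ (τ * g) μ
      map_add' := fun _ _ => rfl
      map_smul' := fun _ _ => rfl }
  map_one' := by
    ext F
    simp
  map_mul' g h := by
    ext F
    simp [mul_assoc]

/-- The translations in the third variable. -/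
def r3 (Q : Type*) [AddCommGroup Q] [Module ℚ Q] :
    Representation ℚ (Perm ι) (Perm ι → Perm ι → Perm ι → Q) where
  toFun g :=
    { toFun := fun F σ τ μ => F σ τ (μ * g)
      map_add' := fun _ _ => rfl
      map_smul' := fun _ _ => rfl }
  map_one' := by
    ext F
    simp
  map_mul' g h := by
    ext F
    simp [mul_assoc]

/-- The simultaneous translations in the first two variables. -/
def r12 (Q : Type*) [AddCommGroup Q] [Module ℚ Q] :
    Representation ℚ (Perm ι) (Perm ι → Perm ι → Perm ι → Q) where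
  toFun g :=
    { toFun := fun F σ τ μ => F (σ * g) (τ * g) μ
      map_add' := fun _ _ => rfl
      map_smul' := fun _ _ => rfl }
  map_one' := by
    ext F
    simp
  map_mul' g h := by
    ext F
    simp [mul_assoc]

lemma sum_supp_conj {M : Type*} [AddCommGroup M] (B : Finset ι) (g : Perm ι) (f : Perm ι → M) :
    ∑ π ∈ supp B, f (g⁻¹ * π * g) = ∑ π ∈ supp (B.map (g⁻¹ : Perm ι).toEmbedding), f π := by
  refine Finset.sum_nbij' (fun π => g⁻¹ * π * g) (fun π => g * π * g⁻¹) ?_ ?_ ?_ ?_ ?_
  · intro π hπ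
    rw [mem_supp] at *
    intro i hi
    have h1 : g i ∉ B := by
      intro h
      apply hi
      rw [Finset.mem_map]
      exact ⟨g i, h, by simp⟩
    rw [Perm.mul_apply, Perm.mul_apply, hπ _ h1]
    simp
  · intro π hπ
    rw [mem_supp] at *
    intro i hi
    have h1 : g⁻¹ i ∉ B.map (g⁻¹ : Perm ι).toEmbedding := by
      intro h
      rw [Finset.mem_map] at h
      obtain ⟨j, hj, h2⟩ := h
      have h3 : j = i := (g⁻¹ : Perm ι).injective h2
      exact hi (h3 ▸ hj)
    rw [Perm.mul_apply, Perm.mul_apply, hπ _ h1]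
    simp
  · intro π _
    group
  · intro π _
    group
  · intro π _
    rfl

/-- The functions whose symmetrizations over `b + 1` indices vanish in all three variables. -/
def symFree (Q : Type*) [AddCommGroup Q] [Module ℚ Q] (b : ℕ) :
    Submodule ℚ (Perm ι → Perm ι → Perm ι → Q) where
  carrier := {F | ∀ B : Finset ι, B.card = b + 1 → ∀ σ τ μ : Perm ι,
    (∑ π ∈ supp B, F (σ * π) τ μ = 0) ∧ (∑ π ∈ supp B, F σ (τ * π) μ = 0) ∧
      (∑ π ∈ supp B, F σ τ (μ * π) = 0)}
  add_mem' := by
    intro F G hF hG B hB σ τ μ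
    obtain ⟨h1, h2, h3⟩ := hF B hB σ τ μ
    obtain ⟨h4, h5, h6⟩ := hG B hB σ τ μ
    simp only [Pi.add_apply, Finset.sum_add_distrib, h1, h2, h3, h4, h5, h6, add_zero, and_self]
  zero_mem' := by
    intro B _ σ τ μ
    simp
  smul_mem' := by
    intro q F hF B hB σ τ μ
    obtain ⟨h1, h2, h3⟩ := hF B hB σ τ μ
    simp only [Pi.smul_apply, ← Finset.smul_sum, h1, h2, h3, smul_zero, and_self]

lemma symFree_r12 (b : ℕ) (g : Perm ι) {F : Perm ι → Perm ι → Perm ι → Q}
    (hF : F ∈ symFree Q b) : r12 Q g F ∈ symFree Q b := by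
  intro B hB σ τ μ
  have hB' : (B.map (g⁻¹ : Perm ι).toEmbedding).card = b + 1 := by rw [card_map, hB]
  refine ⟨?_, ?_, ?_⟩
  · have h := (hF _ hB' (σ * g) (τ * g) μ).1
    rw [← sum_supp_conj] at h
    rw [← h]
    apply Finset.sum_congr rfl
    intro π _
    change F (σ * π * g) (τ * g) μ = _
    congr 1
    group
  · have h := (hF _ hB' (σ * g) (τ * g) μ).2.1
    rw [← sum_supp_conj] at h
    rw [← h]
    apply Finset.sum_congr rfl
    intro π _
    change F (σ * g) (τ * π * g) μ = _
    congr 1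
    group
  · exact (hF _ hB (σ * g) (τ * g) μ).2.2

lemma symFree_r1 (b : ℕ) (g : Perm ι) {F : Perm ι → Perm ι → Perm ι → Q}
    (hF : F ∈ symFree Q b) : r1 Q g F ∈ symFree Q b := by
  intro B hB σ τ μ
  have hB' : (B.map (g⁻¹ : Perm ι).toEmbedding).card = b + 1 := by rw [card_map, hB]
  refine ⟨?_, ?_, ?_⟩
  · have h := (hF _ hB' (σ * g) τ μ).1
    rw [← sum_supp_conj] at h
    rw [← h]
    apply Finset.sum_congr rfl
    intro π _
    change F (σ * π * g) τ μ = _
    congr 1
    group
  · exact (hF _ hB (σ * g) τ μ).2.1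
  · exact (hF _ hB (σ * g) τ μ).2.2

lemma E_r1 (b : ℕ) {F : Perm ι → Perm ι → Perm ι → Q} (hF : F ∈ symFree Q b) {B : Finset ι}
    (hB : B.card = b + 1) : E (r1 Q) false B F = 0 := by
  funext σ τ μ
  rw [E, Finset.sum_apply, Finset.sum_apply, Finset.sum_apply]
  simp only [sg_false, one_smul]
  exact (hF B hB σ τ μ).1

lemma E_r2 (b : ℕ) {F : Perm ι → Perm ι → Perm ι → Q} (hF : F ∈ symFree Q b) {B : Finset ι}
    (hB : B.card = b + 1) : E (r2 Q) false B F = 0 := by
  funext σ τ μ
  rw [E, Finset.sum_apply, Finset.sum_apply, Finset.sum_apply]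
  simp only [sg_false, one_smul]
  exact (hF B hB σ τ μ).2.1

lemma E_r3 (b : ℕ) {F : Perm ι → Perm ι → Perm ι → Q} (hF : F ∈ symFree Q b) {B : Finset ι}
    (hB : B.card = b + 1) : E (r3 Q) false B F = 0 := by
  funext σ τ μ
  rw [E, Finset.sum_apply, Finset.sum_apply, Finset.sum_apply]
  simp only [sg_false, one_smul]
  exact (hF B hB σ τ μ).2.2

theorem triple_eq_zero (b : ℕ) (hι : b * b * b < Fintype.card ι)
    (F : Perm ι → Perm ι → Perm ι → Q)
    (hinv : ∀ π σ τ μ : Perm ι, F (σ * π) (τ * π) (μ * π) = F σ τ μ) (hF : F ∈ symFree Q b) :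
    F = 0 := by
  have hpair : ∀ A : Finset ι, A.card = b * b + 1 → ∀ G ∈ symFree (ι := ι) Q b,
      E (r12 Q) true A G = 0 := by
    intro A hA G hG
    refine two_actions (ρ₁ := r1 Q) (ρ₂ := r2 Q) (fun _ _ _ => rfl) false false true (by decide)
      b b A (by omega) (symFree Q b) (fun π _ x hx => symFree_r1 b π hx)
      (fun B _ hc x hx => E_r1 b hx hc) (fun B _ hc x hx => E_r2 b hx hc) _ ?_ ?_
    · unfold E
      apply Submodule.sum_mem
      intro π _
      exact Submodule.smul_mem _ _ (symFree_r12 b π hG)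
    · intro π hπ
      have h0 : ∀ x : Perm ι → Perm ι → Perm ι → Q, r1 Q π (r2 Q π x) = r12 Q π x := fun _ => rfl
      rw [h0]
      unfold E
      rw [map_sum, Finset.smul_sum]
      have h1 : ∀ σ ∈ supp A, r12 Q π (sg true σ • r12 Q σ G) =
          sg true π • (sg true (π * σ) • r12 Q (π * σ) G) := by
        intro σ _
        rw [map_smul, map_mul, Module.End.mul_apply, smul_smul, sg_mul, ← mul_assoc, sg_sq,
          one_mul]
      rw [Finset.sum_congr rfl h1]
      exact sum_supp_mul hπ (fun σ => sg true π • (sg true σ • r12 Q σ G))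
  refine two_actions (ρ₁ := r12 Q) (ρ₂ := r3 Q) (fun _ _ _ => rfl) true false false (by decide)
    (b * b) b univ (by rw [card_univ]; exact hι) (symFree Q b)
    (fun π _ x hx => symFree_r12 b π hx) (fun B _ hc x hx => hpair B hc x hx)
    (fun B _ hc x hx => E_r3 b hx hc) F hF ?_
  intro π _
  rw [sg_false, one_smul]
  funext σ τ μ
  exact hinv π σ τ μ

end triple

end Pool.Agent.X308.V
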