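import Pool.Agent.X308.V.Three

/-!
# The quotient of the theory of Chow groups by a prime adequate relation
-/

set_option autoImplicit false

open CategoryTheory AlgebraicGeometry

universe u v w

namespace Pool.Agent.X308.V

open Pool.Agent.H914 Pool.Agent.H914.VarClass Pool.Agent.H914.VarClass.Obj Pool.Agent.W492.BB
  Pool.Agent.W550.Corr Pool.Agent.TH133 Pool.Agent.TH829.Prime Pool.Agent.TH829.Kim
  Pool.Agent.Y148.BB Pool.Agent.X308.Q

set_option linter.unusedSectionVars false

variable {k : Type u} [Field k] {𝒱 : VarClass k}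

section chow

variable {C : TheoryData.{u, v, 0} 𝒱 ℚ} [hC : IsChowProj C]
  {T X Y Z W V U X' Y' Z' : 𝒱.Obj} {I : Family C} (hI : IsAdequate C I)

lemma qc_ext (a : C.A X) (b : C.A Y) : (quo hI).ext (qc hI a) (qc hI b) = qc hI (C.ext a b) := by
  rw [TheoryData.ext, TheoryData.ext, qc_pull, qc_pull, qc_mul]

lemma qc_graph (f : X ⟶ Y) : (quo hI).graph f = qc hI (C.graph f) := by
  rw [TheoryData.graph, TheoryData.graph, ← qc_push, qc_one]

lemma qc_dg (X : 𝒱.Obj) : dg (quo hI) X = qc hI (dg C X) := qc_graph hI (𝟙 X)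

lemma qc_odd (o : C.A T) : oddProj (quo hI) (qc hI o) = qc hI (oddProj C o) := by
  rw [oddProj, oddProj, qc_sub, qc_sub, qc_dg, ← qc_ext, ← qc_ext, qc_one]

lemma qc_comp (a : C.A (X.prod Y)) (b : C.A (Y.prod Z)) :
    (quo hI).comp (qc hI a) (qc hI b) = qc hI (C.comp a b) := by
  rw [TheoryData.comp, TheoryData.comp, qc_pull, qc_pull, ← qc_mul, qc_push]

lemma qc_act (a : C.A (X.prod Y)) (b : C.A X) :
    (quo hI).act (qc hI a) (qc hI b) = qc hI (C.act a b) := by
  rw [TheoryData.act_apply, TheoryData.act_apply, qc_pull, ← qc_mul, qc_push]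

lemma qc_tp (a : C.A (X.prod Y)) : tp (quo hI) (qc hI a) = qc hI (tp C a) := by
  rw [tp, tp, qc_pull]

lemma qc_value (p : C.A (X.prod X)) (x y : W ⟶ X) :
    value (quo hI) (qc hI p) x y = qc hI (value C p x y) := by
  rw [value, value, TheoryData.up, TheoryData.up, qc_pull]

lemma qc_listProd (l : List (C.A W)) : qc hI l.prod = (l.map (qc hI)).prod := by
  induction l with
  | nil => rw [List.prod_nil, List.map_nil, List.prod_nil, qc_one]
  | cons a l ih => rw [List.prod_cons, List.map_cons, List.prod_cons, qc_mul, ih]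

lemma qc_symPower {n : ℕ} (p : C.A (X.prod X)) (x y : Fin n → (W ⟶ X)) :
    symPower (quo hI) (qc hI p) x y = qc hI (symPower C p x y) := by
  rw [symPower, symPower, qc_sum]
  apply Finset.sum_congr rfl
  intro σ _
  rw [qc_listProd, List.map_ofFn]
  congr 2

lemma qc_altPower {n : ℕ} (p : C.A (X.prod X)) (x y : Fin n → (W ⟶ X)) :
    altPower (quo hI) (qc hI p) x y = qc hI (altPower C p x y) := by
  rw [altPower, altPower, qc_sum]
  apply Finset.sum_congr rfl
  intro σ _
  rw [← Int.cast_smul_eq_zsmul ℚ, ← Int.cast_smul_eq_zsmul ℚ, qc_smul, qc_listProd, List.map_ofFn]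
  congr 3

lemma hasDegree_qc {x : C.A X} {q : ℚ} (h : HasDegree C x q) :
    HasDegree (quo hI) (qc hI x) q := by
  intro Y
  constructor
  · rw [qc_pull, qc_push, (h Y).1, qc_smul, qc_one]
  · rw [qc_pull, qc_push, (h Y).2, qc_smul, qc_one]

lemma hasDegree_of_qc (hne : ∀ X : 𝒱.Obj, (1 : (quo hI).A X) ≠ 0) {x : C.A X}
    (hx : C.Deg X.dim x) {q : ℚ} (h : HasDegree (quo hI) (qc hI x) q) : HasDegree C x q := by
  obtain ⟨r, hr⟩ := exists_hasDegree hx
  have h1 := hasDegree_uniq (hne X) (hasDegree_qc hI hr) h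
  rwa [h1] at hr

/-- The quotient by a prime adequate relation. -/
lemma isDom_quo (hI : IsPrime C I) : IsDom (quo hI.toIsAdequate) where
  one_ne X h := by
    rw [← qc_one] at h
    exact hI.one_notMem X (mem_of_qc (C.one_mem X) h)
  prime := by
    intro X Y i j x y hx hy h
    obtain ⟨a, ha, rfl⟩ := qc_gr _ hx
    obtain ⟨b, hb, rfl⟩ := qc_gr _ hy
    rw [qc_ext] at h
    rcases hI.prime ha hb (mem_of_qc (ext_mem' ha hb) h) with h1 | h1
    · exact Or.inl (qc_of_mem _ h1)
    · exact Or.inr (qc_of_mem _ h1)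

/-- The properties of curves hold in the quotient. -/
lemma curveProperties_quo (hI : IsPrime C I) (hP : CurveProperties C) :
    CurveProperties (quo hI.toIsAdequate) where
  zero_cycles := by
    intro X x hx h0
    obtain ⟨a, ha, rfl⟩ := qc_gr _ hx
    have h1 := hP.zero_cycles X a ha (hasDegree_of_qc _ (isDom_quo hI).one_ne ha h0)
    unfold algPower at h1 ⊢
    have h2 : (Submodule.span ℚ {z | ∃ (Y : 𝒱.Obj) (y : C.A Y) (Γ : C.A (Y.prod X)),
        CurveCycle C 1 Y y ∧ C.Deg X.dim Γ ∧ z = C.act Γ y}).map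
          (qlin hI.toIsAdequate X) ≤
        Submodule.span ℚ {z | ∃ (Y : 𝒱.Obj) (y : (quo hI.toIsAdequate).A Y)
          (Γ : (quo hI.toIsAdequate).A (Y.prod X)), CurveCycle (quo hI.toIsAdequate) 1 Y y ∧
            (quo hI.toIsAdequate).Deg X.dim Γ ∧ z = (quo hI.toIsAdequate).act Γ y} := by
      rw [Submodule.map_span, Submodule.span_le]
      rintro z ⟨z', ⟨Y, y, Γ, hy, hΓ, rfl⟩, rfl⟩
      apply Submodule.subset_span
      refine ⟨Y, qc _ y, qc _ Γ, ?_, qc_mem _ hΓ, (qc_act _ _ _).symm⟩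
      have key : ∀ (s : ℕ) (Y : 𝒱.Obj) (y : C.A Y), CurveCycle C s Y y → s = 1 →
          CurveCycle (quo hI.toIsAdequate) 1 Y (qc _ y) := by
        intro s Y y hy hs
        cases hy with
        | one T c hT hc hd' => exact CurveCycle.one _ _ hT (qc_mem _ hc) (hasDegree_qc _ hd')
        | cons s T Y c y hT hc hd' hy =>
          exfalso
          have hs0 : s = 0 := by omega
          subst hs0
          cases hy
      exact key 1 Y y hy rfl
    exact h2 ⟨a, h1, rfl⟩
  one_cycles := by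
    intro X x hx
    obtain ⟨a, ha, rfl⟩ := qc_gr _ hx
    have h1 := hP.one_cycles X a ha
    have h2 : (Submodule.span ℚ {c | ∃ (T : 𝒱.Obj) (f : T ⟶ X), T.dim = 1 ∧
        c = C.down f 1}).map (qlin hI.toIsAdequate X) ≤
        Submodule.span ℚ {c | ∃ (T : 𝒱.Obj) (f : T ⟶ X), T.dim = 1 ∧
          c = (quo hI.toIsAdequate).down f 1} := by
      rw [Submodule.map_span, Submodule.span_le]
      rintro z ⟨z', ⟨T, f, hT, rfl⟩, rfl⟩
      apply Submodule.subset_span
      exact ⟨T, f, hT, rfl⟩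
    exact h2 ⟨a, h1, rfl⟩
  odd := by
    intro T o hT ho h1
    obtain ⟨o, ho', rfl⟩ := qc_gr _ ho
    have ho2 : C.Deg T.dim o := by
      rw [hT]
      exact_mod_cast ho'
    obtain ⟨n, hn, h2⟩ := hP.odd T o hT ho' (hasDegree_of_qc _ (isDom_quo hI).one_ne ho2 h1)
    refine ⟨n, hn, fun W x y => ?_⟩
    rw [qc_odd, qc_symPower, h2, qc_zero]

end chow

end Pool.Agent.X308.V
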