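import Pool.Agent.X308.V.Perm2
import Pool.Agent.X308.Q.Theory

/-!
# Permanents and determinants whose rows are classes on `W × T`
-/

set_option autoImplicit false

open CategoryTheory AlgebraicGeometry

universe u v w

namespace Pool.Agent.X308.V

open Pool.Agent.H914 Pool.Agent.H914.VarClass Pool.Agent.H914.VarClass.Obj Pool.Agent.W492.BB
  Pool.Agent.W550.Corr Pool.Agent.TH133 Pool.Agent.TH829.Prime Pool.Agent.TH829.Kim

set_option linter.unusedSectionVars false

variable {k : Type u} [Field k] {𝒱 : VarClass k}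

section perm

variable {ι : Type*} [Fintype ι] [DecidableEq ι]

/-- Sums over the permutations of the elements of `B`. -/
lemma sum_supp_eq {M : Type*} [AddCommMonoid M] (B : Finset ι) (F : Equiv.Perm ι → M) :
    ∑ π ∈ supp B, F π = ∑ ρ : Equiv.Perm {i // i ∈ B}, F (Equiv.Perm.ofSubtype ρ) := by
  have h1 : ∑ π ∈ supp B, F π = ∑ f : { f : Equiv.Perm ι // ∀ a, ¬ (a ∈ B) → f a = a }, F f :=
    Finset.sum_subtype (supp B) (p := fun f => ∀ a, ¬ (a ∈ B) → f a = a)
      (fun π => mem_supp) F
  rw [h1, ← Equiv.sum_comp (Equiv.Perm.subtypeEquivSubtypePerm (fun a => a ∈ B))]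
  rfl

/-- A permanent or determinant over the elements of `B`. -/
lemma sum_supp_prod {R : Type*} [CommRing R] [Algebra ℚ R] (s : Bool) (B : Finset ι)
    (f : ι → ι → R) {n : ℕ} (e : Fin n ≃ {i // i ∈ B}) :
    ∑ π ∈ supp B, sg s π • ∏ i ∈ B, f i (π i) =
      ∑ ρ : Equiv.Perm (Fin n), sg s ρ • ∏ j, f (e j) (e (ρ j)) := by
  rw [sum_supp_eq, ← Equiv.sum_comp (e.permCongr)]
  apply Finset.sum_congr rfl
  intro ρ _
  have h1 : sg s (Equiv.Perm.ofSubtype (e.permCongr ρ) : Equiv.Perm ι) = sg s ρ := by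
    cases s
    · rw [sg_false, sg_false]
    · unfold sg
      simp only [Equiv.Perm.sign_ofSubtype, Equiv.Perm.sign_permCongr]
  rw [h1]
  congr 1
  rw [← Finset.prod_coe_sort B, ← Equiv.prod_comp e]
  apply Finset.prod_congr rfl
  intro j _
  rw [Equiv.Perm.ofSubtype_apply_coe, Equiv.permCongr_apply, Equiv.symm_apply_apply]

end perm

section chow

variable {C : TheoryData.{u, v, 0} 𝒱 ℚ} [hC : IsChowProj C] {T X Y Z W V : 𝒱.Obj}

/-- The value of the row `r` at the point `x`. -/
noncomputable def rv (r : C.A (W.prod T)) (x : W ⟶ T) : C.A W := C.pull (Obj.lift (𝟙 W) x) r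

/-- The value of the composition of the row `r` and the correspondence `D` at the point `x`. -/
noncomputable def rD (D : C.A (T.prod T)) (r : C.A (W.prod T)) (x : W ⟶ T) : C.A W :=
  C.push (fst W T) (r * ev D (snd W T) (fst W T ≫ x))

include hC

lemma pull_rD (D : C.A (T.prod T)) (r : C.A (W.prod T)) (x : W ⟶ T) (g : V ⟶ W) :
    C.pull g (rD D r x) = rD D (C.pull (prodMap g (𝟙 T)) r) (g ≫ x) := by
  rw [rD, rD, base_pull, map_mul, pull_ev, prodMap_snd, prodMap_fst_assoc, Category.comp_id]

variable {J : Type} [Fintype J] [DecidableEq J]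

/-- If the determinants of the correspondence `D` vanish then the determinants of rows composed
with `D` vanish. -/
lemma rows_zero (s : Bool) (D : C.A (T.prod T))
    (hD : ∀ (W : 𝒱.Obj) (p x : J → (W ⟶ T)),
      ∑ π : Equiv.Perm J, sg s π • ∏ j, ev D (p j) (x (π j)) = 0) (S : Finset J) :
    ∀ (W : 𝒱.Obj) (r : J → C.A (W.prod T)) (p x : J → (W ⟶ T)),
      ∑ π : Equiv.Perm J, sg s π • ∏ j, (if j ∈ S then rD D (r j) (x (π j)) else
        ev D (p j) (x (π j))) = 0 := by
  induction S using Finset.induction_on with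
  | empty =>
    intro W r p x
    simpa using hD W p x
  | insert i S hi ih =>
    intro W r p x
    let A : Equiv.Perm J → C.A W := fun π => ∏ j ∈ Finset.univ.erase i,
      (if j ∈ S then rD D (r j) (x (π j)) else ev D (p j) (x (π j)))
    have h1 : ∀ π : Equiv.Perm J, ∏ j, (if j ∈ insert i S then rD D (r j) (x (π j)) else
        ev D (p j) (x (π j))) = C.push (fst W T) (r i *
          (ev D (snd W T) (fst W T ≫ x (π i)) * C.pull (fst W T) (A π))) := by
      intro π
      rw [← Finset.mul_prod_erase Finset.univ _ (Finset.mem_univ i),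
        if_pos (Finset.mem_insert_self i S), ← mul_assoc, C.proj_right]
      congr 1
      apply Finset.prod_congr rfl
      intro j hj
      have hji : j ≠ i := (Finset.mem_erase.1 hj).1
      by_cases hjS : j ∈ S
      · rw [if_pos (Finset.mem_insert_of_mem hjS), if_pos hjS]
      · rw [if_neg (by simp [hji, hjS]), if_neg hjS]
    let p' : J → (W.prod T ⟶ T) := Function.update (fun j => fst W T ≫ p j) i (snd W T)
    have h2 : ∀ π : Equiv.Perm J, ev D (snd W T) (fst W T ≫ x (π i)) * C.pull (fst W T) (A π) =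
        ∏ j, (if j ∈ S then rD D (C.pull (prodMap (fst W T) (𝟙 T)) (r j)) (fst W T ≫ x (π j)) else
          ev D (p' j) (fst W T ≫ x (π j))) := by
      intro π
      rw [← Finset.mul_prod_erase Finset.univ _ (Finset.mem_univ i), if_neg hi]
      have e1 : p' i = snd W T := Function.update_self _ _ _
      rw [e1]
      congr 1
      simp only [A, map_prod]
      apply Finset.prod_congr rfl
      intro j hj
      have hji : j ≠ i := (Finset.mem_erase.1 hj).1
      have e2 : p' j = fst W T ≫ p j := Function.update_of_ne hji _ _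
      rw [e2]
      split_ifs
      · rw [pull_rD]
      · rw [pull_ev]
    have h3 : ∀ π : Equiv.Perm J, sg s π • ∏ j, (if j ∈ insert i S then rD D (r j) (x (π j)) else
        ev D (p j) (x (π j))) = C.push (fst W T) (r i * (sg s π •
          ∏ j, (if j ∈ S then rD D (C.pull (prodMap (fst W T) (𝟙 T)) (r j)) (fst W T ≫ x (π j)) else
          ev D (p' j) (fst W T ≫ x (π j))))) := by
      intro π
      rw [h1, h2, mul_smul_comm, map_smul]
    rw [Finset.sum_congr rfl (fun π _ => h3 π), ← map_sum, ← Finset.mul_sum,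
      ih (W.prod T) (fun j => C.pull (prodMap (fst W T) (𝟙 T)) (r j)) p' (fun j => fst W T ≫ x j),
      mul_zero, map_zero]

/-- The row `r` is stable under the correspondence `D`. -/
def Stable (D : C.A (T.prod T)) (r : C.A (W.prod T)) : Prop := ∀ x : W ⟶ T, rv r x = rD D r x

lemma rows_stable (s : Bool) (D : C.A (T.prod T))
    (hD : ∀ (W : 𝒱.Obj) (p x : J → (W ⟶ T)),
      ∑ π : Equiv.Perm J, sg s π • ∏ j, ev D (p j) (x (π j)) = 0)
    (r : J → C.A (W.prod T)) (hr : ∀ j, Stable D (r j)) (x : J → (W ⟶ T)) :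
    ∑ π : Equiv.Perm J, sg s π • ∏ j, rv (r j) (x (π j)) = 0 := by
  have h := rows_zero s D hD Finset.univ W r x x
  rw [← h]
  apply Finset.sum_congr rfl
  intro π _
  congr 1
  apply Finset.prod_congr rfl
  intro j _
  rw [if_pos (Finset.mem_univ j), hr j]

/-- The correspondence `D` dies: its determinants (`s = true`) or permanents (`s = false`) of size
`n` vanish. -/
def Dead (C : TheoryData.{u, v, 0} 𝒱 ℚ) [IsChowProj C] {T : 𝒱.Obj} (s : Bool) (n : ℕ)
    (D : C.A (T.prod T)) : Prop :=
  ∀ (W : 𝒱.Obj) (p x : Fin n → (W ⟶ T)),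
    ∑ π : Equiv.Perm (Fin n), sg s π • ∏ j, ev D (p j) (x (π j)) = 0

lemma supp_stable {s : Bool} {D : C.A (T.prod T)} {n : ℕ} (hD : Dead C s n D) {ι : Type*}
    [Fintype ι] [DecidableEq ι] (B : Finset ι) (hB : B.card = n) (r : ι → C.A (W.prod T))
    (hr : ∀ i, Stable D (r i)) (x : ι → (W ⟶ T)) :
    ∑ π ∈ supp B, sg s π • ∏ i ∈ B, rv (r i) (x (π i)) = 0 := by
  have e : Fin n ≃ {i // i ∈ B} := (Fintype.equivFinOfCardEq (by rw [Fintype.card_coe, hB])).symm
  rw [sum_supp_prod s B (fun i j => rv (r i) (x j)) e]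
  exact rows_stable (J := Fin n) s D hD (fun j => r (e j)) (fun j => hr _) (fun j => x (e j))

end chow

end Pool.Agent.X308.V
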