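import Pool.Agent.X308.V.Kappa

/-!
# One-cycles on the product of three varieties
-/

set_option autoImplicit false

open CategoryTheory AlgebraicGeometry

universe u v w

namespace Pool.Agent.X308.V

open Pool.Agent.H914 Pool.Agent.H914.VarClass Pool.Agent.H914.VarClass.Obj Pool.Agent.W492.BB
  Pool.Agent.W550.Corr Pool.Agent.TH133 Pool.Agent.TH829.Prime Pool.Agent.TH829.Kim
  Pool.Agent.Y148.BB

set_option linter.unusedSectionVars false

variable {k : Type u} [Field k] {𝒱 : VarClass k}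

section chow

variable {C : TheoryData.{u, v, 0} 𝒱 ℚ} [hC : IsChowProj C]
  {T X Y Z W V U X' Y' Z' : 𝒱.Obj} {o : C.A T}

include hC

/-- The push-forward of a class `c(p_1, p_2) o(p_3)` under a product of three morphisms. -/
lemma push12 (f : X' ⟶ X) (g : Y' ⟶ Y) (h : Z' ⟶ Z) (c : C.A (X'.prod Y')) (o : C.A Z') :
    C.push (prodMap f (prodMap g h)) (C.pull (u12 X' Y' Z') c *
      C.pull (snd X' (Y'.prod Z') ≫ snd Y' Z') o) =
    C.pull (u12 X Y Z) (C.push (prodMap f g) c) *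
      C.pull (snd X (Y.prod Z) ≫ snd Y Z) (C.push h o) := by
  have e1 : ∀ X Y Z : 𝒱.Obj, aJ X Y Z ≫ fst (X.prod Y) Z = u12 X Y Z := by
    intro X Y Z
    apply prod_ext <;> simp [aJ]
  have e2 : ∀ X Y Z : 𝒱.Obj, aJ X Y Z ≫ snd (X.prod Y) Z = snd X (Y.prod Z) ≫ snd Y Z := by
    intro X Y Z
    simp [aJ]
  have h1 : ∀ (X Y Z : 𝒱.Obj) (c : C.A (X.prod Y)) (o : C.A Z), C.pull (u12 X Y Z) c *
      C.pull (snd X (Y.prod Z) ≫ snd Y Z) o = C.pull (aJ X Y Z) (C.ext c o) := by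
    intro X Y Z c o
    rw [TheoryData.ext, map_mul, ← C.pull_comp, ← C.pull_comp, e1, e2]
  have e3 : prodMap f (prodMap g h) = aJ X' Y' Z' ≫ prodMap (prodMap f g) h ≫ aI X Y Z := by
    apply prod_ext
    · simp [aJ, aI]
    · apply prod_ext <;> simp [aJ, aI]
  rw [h1, h1, e3, C.push_comp, C.push_comp, push_pull_iso C (aJ X' Y' Z') (aI X' Y' Z') aJ_aI aI_aJ,
    push_ext C, pull_iso C (aJ X Y Z) (aI X Y Z) aJ_aI aI_aJ]

/-- The push-forward of a class `c(p_1, p_3) o(p_2)` under a product of three morphisms. -/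
lemma push13 (f : X' ⟶ X) (g : Y' ⟶ Y) (h : Z' ⟶ Z) (c : C.A (X'.prod Z')) (o : C.A Y') :
    C.push (prodMap f (prodMap g h)) (C.pull (u13 X' Y' Z') c *
      C.pull (snd X' (Y'.prod Z') ≫ fst Y' Z') o) =
    C.pull (u13 X Y Z) (C.push (prodMap f h) c) *
      C.pull (snd X (Y.prod Z) ≫ fst Y Z) (C.push g o) := by
  have e0 : ∀ X Y Z : 𝒱.Obj, prodMap (𝟙 X) (sw Y Z) ≫ prodMap (𝟙 X) (sw Z Y) = 𝟙 _ := by
    intro X Y Z
    rw [prodMap_comp, sw_sw]
    apply prod_ext <;> simp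
  have h1 : ∀ (X Y Z : 𝒱.Obj) (c : C.A (X.prod Z)) (o : C.A Y), C.pull (u13 X Y Z) c *
      C.pull (snd X (Y.prod Z) ≫ fst Y Z) o = C.pull (prodMap (𝟙 X) (sw Y Z))
        (C.pull (u12 X Z Y) c * C.pull (snd X (Z.prod Y) ≫ snd Z Y) o) := by
    intro X Y Z c o
    rw [map_mul, ← C.pull_comp, ← C.pull_comp]
    congr 2
    · congr 1
      apply prod_ext <;> simp [sw]
    · simp [sw]
  have e3 : prodMap f (prodMap g h) =
      prodMap (𝟙 X') (sw Y' Z') ≫ prodMap f (prodMap h g) ≫ prodMap (𝟙 X) (sw Z Y) := by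
    rw [prodMap_comp, prodMap_comp, Category.id_comp, Category.comp_id]
    congr 1
    apply prod_ext <;> simp [sw]
  rw [h1, h1, e3, C.push_comp, C.push_comp, push_pull_iso C _ _ (e0 X' Y' Z') (e0 X' Z' Y'),
    push12, pull_iso C _ _ (e0 X Y Z) (e0 X Z Y)]

/-- The push-forward of a class `c(p_2, p_3) o(p_1)` under a product of three morphisms. -/
lemma push23 (f : X' ⟶ X) (g : Y' ⟶ Y) (h : Z' ⟶ Z) (c : C.A (Y'.prod Z')) (o : C.A X') :
    C.push (prodMap f (prodMap g h)) (C.pull (snd X' (Y'.prod Z')) c *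
      C.pull (fst X' (Y'.prod Z')) o) =
    C.pull (snd X (Y.prod Z)) (C.push (prodMap g h) c) *
      C.pull (fst X (Y.prod Z)) (C.push f o) := by
  rw [mul_comm, mul_comm (C.pull (snd X (Y.prod Z)) _)]
  exact push_ext C f (prodMap g h) o c

/-- The small diagonal. -/
lemma push_small (T : 𝒱.Obj) : C.push (Obj.lift (𝟙 T) (Obj.lift (𝟙 T) (𝟙 T))) (1 : C.A T) =
    C.pull (u12 T T T) (dg C T) * C.pull (snd T (T.prod T)) (dg C T) := by
  have e1 : Obj.lift (𝟙 T) (Obj.lift (𝟙 T) (𝟙 T)) =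
      Obj.lift (𝟙 T) (𝟙 T) ≫ prodMap (𝟙 T) (Obj.lift (𝟙 T) (𝟙 T)) := by
    apply prod_ext
    · simp
    · apply prod_ext <;> simp
  have e2 : prodMap (𝟙 T) (Obj.lift (𝟙 T) (𝟙 T)) ≫ u12 T T T = 𝟙 _ := by
    apply prod_ext <;> simp
  have h1 : dg C T = 1 * C.pull (prodMap (𝟙 T) (Obj.lift (𝟙 T) (𝟙 T)))
      (C.pull (u12 T T T) (dg C T)) := by
    rw [← C.pull_comp, e2, C.pull_id, one_mul]
  have h2 : C.push (Obj.lift (𝟙 T) (𝟙 T)) (1 : C.A T) = dg C T := rfl
  have h3 : C.push (prodMap (𝟙 T) (Obj.lift (𝟙 T) (𝟙 T))) (1 : C.A (T.prod T)) =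
      C.pull (snd T (T.prod T)) (dg C T) := by
    rw [← h2, C.base_snd, map_one (C.pull (snd T T))]
  rw [e1, C.push_comp, h2, h1, C.proj_right, h3, mul_comm, ← h1]

/-- The operator on the classes on `X × Y × Z` which is the identity on one-cycles. -/
noncomputable def dec (x : C.A X) (y : C.A Y) (z : C.A Z) :
    C.A (X.prod (Y.prod Z)) →ₗ[ℚ] C.A (X.prod (Y.prod Z)) :=
  LinearMap.mulRight ℚ (C.pull (snd X (Y.prod Z) ≫ snd Y Z) z) ∘ₗ
      (C.pull (u12 X Y Z)).toLinearMap ∘ₗ C.push (u12 X Y Z) +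
    LinearMap.mulRight ℚ (C.pull (fst X (Y.prod Z)) x) ∘ₗ
      (C.pull (snd X (Y.prod Z))).toLinearMap ∘ₗ C.push (snd X (Y.prod Z)) +
    LinearMap.mulRight ℚ (C.pull (snd X (Y.prod Z) ≫ fst Y Z) y) ∘ₗ
      (C.pull (u13 X Y Z)).toLinearMap ∘ₗ C.push (u13 X Y Z) -
    LinearMap.mulLeft ℚ (C.pull (fst X (Y.prod Z)) x * C.pull (snd X (Y.prod Z) ≫ fst Y Z) y) ∘ₗ
      (C.pull (snd X (Y.prod Z) ≫ snd Y Z)).toLinearMap ∘ₗ
        C.push (snd X (Y.prod Z) ≫ snd Y Z) -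
    LinearMap.mulLeft ℚ (C.pull (fst X (Y.prod Z)) x * C.pull (snd X (Y.prod Z) ≫ snd Y Z) z) ∘ₗ
      (C.pull (snd X (Y.prod Z) ≫ fst Y Z)).toLinearMap ∘ₗ
        C.push (snd X (Y.prod Z) ≫ fst Y Z) -
    LinearMap.mulLeft ℚ (C.pull (snd X (Y.prod Z) ≫ fst Y Z) y *
        C.pull (snd X (Y.prod Z) ≫ snd Y Z) z) ∘ₗ
      (C.pull (fst X (Y.prod Z))).toLinearMap ∘ₗ C.push (fst X (Y.prod Z))

lemma dec_apply (x : C.A X) (y : C.A Y) (z : C.A Z) (a : C.A (X.prod (Y.prod Z))) :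
    dec x y z a =
      C.pull (u12 X Y Z) (C.push (u12 X Y Z) a) * C.pull (snd X (Y.prod Z) ≫ snd Y Z) z +
      C.pull (snd X (Y.prod Z)) (C.push (snd X (Y.prod Z)) a) * C.pull (fst X (Y.prod Z)) x +
      C.pull (u13 X Y Z) (C.push (u13 X Y Z) a) * C.pull (snd X (Y.prod Z) ≫ fst Y Z) y -
      C.pull (fst X (Y.prod Z)) x * C.pull (snd X (Y.prod Z) ≫ fst Y Z) y *
        C.pull (snd X (Y.prod Z) ≫ snd Y Z) (C.push (snd X (Y.prod Z) ≫ snd Y Z) a) -
      C.pull (fst X (Y.prod Z)) x * C.pull (snd X (Y.prod Z) ≫ snd Y Z) z *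
        C.pull (snd X (Y.prod Z) ≫ fst Y Z) (C.push (snd X (Y.prod Z) ≫ fst Y Z) a) -
      C.pull (snd X (Y.prod Z) ≫ fst Y Z) y * C.pull (snd X (Y.prod Z) ≫ snd Y Z) z *
        C.pull (fst X (Y.prod Z)) (C.push (fst X (Y.prod Z)) a) := rfl

/-- The decomposition of the class of a curve on `X × Y × Z`. -/
lemma dec_curve (hd : IsDom C) (hP : CurveProperties C) (hT : T.dim = 1) (ho : C.Deg 1 o)
    (h1 : HasDegree C o 1) (f : T ⟶ X) (g : T ⟶ Y) (h : T ⟶ Z) :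
    dec (C.push f o) (C.push g o) (C.push h o) (C.push (Obj.lift f (Obj.lift g h)) 1) =
      C.push (Obj.lift f (Obj.lift g h)) 1 := by
  have hrel := diag_rel hd hP hT ho h1 (fst T (T.prod T)) (snd T (T.prod T) ≫ fst T T)
    (snd T (T.prod T) ≫ snd T T)
  have a1 : Obj.lift (fst T (T.prod T)) (snd T (T.prod T) ≫ fst T T) = u12 T T T := by
    apply prod_ext <;> simp
  have a2 : Obj.lift (snd T (T.prod T) ≫ fst T T) (snd T (T.prod T) ≫ snd T T) =
      snd T (T.prod T) := by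
    apply prod_ext <;> simp
  have a3 : Obj.lift (fst T (T.prod T)) (snd T (T.prod T) ≫ snd T T) = u13 T T T := by
    apply prod_ext <;> simp
  simp only [ev, a1, a2, a3] at hrel
  rw [← push_small] at hrel
  have hpush := congrArg (C.push (prodMap f (prodMap g h))) hrel
  have e1 : Obj.lift (𝟙 T) (Obj.lift (𝟙 T) (𝟙 T)) ≫ prodMap f (prodMap g h) =
      Obj.lift f (Obj.lift g h) := by
    apply prod_ext
    · simp
    · apply prod_ext <;> simp
  have b1 : Obj.lift f (Obj.lift g h) ≫ u12 X Y Z = Obj.lift f g := by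
    apply prod_ext <;> simp
  have b2 : Obj.lift f (Obj.lift g h) ≫ u13 X Y Z = Obj.lift f h := by
    apply prod_ext <;> simp
  have b3 : ∀ {X Y : 𝒱.Obj} (f : T ⟶ X) (g : T ⟶ Y),
      C.push (prodMap f g) (dg C T) = C.push (Obj.lift f g) 1 := by
    intro X Y f g
    rw [dg, TheoryData.graph, ← C.push_comp]
    congr 2
    apply prod_ext <;> simp
  have c1 : C.push (prodMap f (prodMap g h)) (C.pull (fst T (T.prod T)) o *
      C.pull (snd T (T.prod T) ≫ fst T T) o) = C.pull (fst X (Y.prod Z)) (C.push f o) *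
        C.pull (snd X (Y.prod Z) ≫ fst Y Z) (C.push g o) *
          C.pull (snd X (Y.prod Z) ≫ snd Y Z) (C.push h 1) := by
    have h2 := push_ext C f (prodMap g h) o (C.ext o 1)
    rw [push_ext C g h o 1] at h2
    simp only [TheoryData.ext, map_mul, map_one, mul_one] at h2
    rw [← C.pull_comp, ← C.pull_comp, ← C.pull_comp] at h2
    rw [h2, mul_assoc]
  have c2 : C.push (prodMap f (prodMap g h)) (C.pull (fst T (T.prod T)) o *
      C.pull (snd T (T.prod T) ≫ snd T T) o) = C.pull (fst X (Y.prod Z)) (C.push f o) *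
        C.pull (snd X (Y.prod Z) ≫ snd Y Z) (C.push h o) *
          C.pull (snd X (Y.prod Z) ≫ fst Y Z) (C.push g 1) := by
    have h2 := push_ext C f (prodMap g h) o (C.ext 1 o)
    rw [push_ext C g h 1 o] at h2
    simp only [TheoryData.ext, map_mul, map_one, one_mul] at h2
    rw [← C.pull_comp, ← C.pull_comp, ← C.pull_comp] at h2
    rw [h2]
    ring
  have c3 : C.push (prodMap f (prodMap g h)) (C.pull (snd T (T.prod T) ≫ fst T T) o *
      C.pull (snd T (T.prod T) ≫ snd T T) o) =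
        C.pull (snd X (Y.prod Z) ≫ fst Y Z) (C.push g o) *
        C.pull (snd X (Y.prod Z) ≫ snd Y Z) (C.push h o) *
          C.pull (fst X (Y.prod Z)) (C.push f 1) := by
    have h2 := push_ext C f (prodMap g h) 1 (C.ext o o)
    rw [push_ext C g h o o] at h2
    simp only [TheoryData.ext, map_mul, map_one, one_mul] at h2
    rw [← C.pull_comp, ← C.pull_comp, ← C.pull_comp, ← C.pull_comp] at h2
    rw [h2]
    ring
  rw [dec_apply]
  simp only [← C.push_comp]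
  rw [b1, b2]
  simp only [← Category.assoc, lift_fst, lift_snd]
  rw [map_sub, map_sub, map_sub, map_add, map_add, push12, push23, push13, b3, b3, b3, c1, c2, c3,
    ← C.push_comp, e1] at hpush
  exact hpush.symm

/-- The decomposition of one-cycles on `X × Y × Z`. -/
theorem dec_eq (hd : IsDom C) (hP : CurveProperties C) {x : C.A X} {y : C.A Y} {z : C.A Z}
    (hx : C.Deg X.dim x) (hx1 : HasDegree C x 1) (hy : C.Deg Y.dim y) (hy1 : HasDegree C y 1)
    (hz : C.Deg Z.dim z) (hz1 : HasDegree C z 1) {a : C.A (X.prod (Y.prod Z))}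
    (ha : C.Deg (((X.prod (Y.prod Z)).dim : ℤ) - 1) a) : dec x y z a = a := by
  have h := hP.one_cycles _ a ha
  have huniq : ∀ {X : 𝒱.Obj} {x x' : C.A X}, C.Deg X.dim x → HasDegree C x 1 → C.Deg X.dim x' →
      HasDegree C x' 1 → x = x' := by
    intro X x x' h1 h2 h3 h4
    rw [← sub_eq_zero]
    apply zero_cycle hd hP (Submodule.sub_mem _ h1 h3)
    have h5 := HasDegree.add h2 (HasDegree.smul (-1) h4)
    norm_num at h5
    rw [sub_eq_add_neg]
    exact h5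
  have key : ∀ c ∈ {c | ∃ (T : 𝒱.Obj) (f : T ⟶ X.prod (Y.prod Z)), T.dim = 1 ∧ c = C.down f 1},
      dec x y z c = (LinearMap.id : C.A (X.prod (Y.prod Z)) →ₗ[ℚ] C.A (X.prod (Y.prod Z))) c := by
    rintro c ⟨T, f, hT, rfl⟩
    obtain ⟨o, ho, h1, h2⟩ := hC.exists_deg_one T
    have hod : HasDegree C o 1 := fun Y => by rw [one_smul]; exact ⟨h2 Y, h1 Y⟩
    have ho1 : C.Deg 1 o := by
      have := ho
      rw [hT] at this
      exact_mod_cast this
    have hmem : ∀ {X : 𝒱.Obj} (f : T ⟶ X), C.Deg X.dim (C.push f o) := by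
      intro X f
      have h3 := C.push_mem f ho
      have e : (T.dim : ℤ) + 1 * ((X.dim : ℤ) - T.dim) = X.dim := by ring
      rwa [e] at h3
    have e1 : f = Obj.lift (f ≫ fst X (Y.prod Z)) (Obj.lift (f ≫ snd X (Y.prod Z) ≫ fst Y Z)
        (f ≫ snd X (Y.prod Z) ≫ snd Y Z)) := by
      apply prod_ext
      · simp
      · apply prod_ext <;> simp
    have h3 := dec_curve hd hP hT ho1 hod (f ≫ fst X (Y.prod Z)) (f ≫ snd X (Y.prod Z) ≫ fst Y Z)
        (f ≫ snd X (Y.prod Z) ≫ snd Y Z)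
    rw [← e1] at h3
    rw [LinearMap.id_apply, TheoryData.down, huniq hx hx1 (hmem (f ≫ fst X (Y.prod Z)))
      (hasDegree_push _ hod), huniq hy hy1 (hmem (f ≫ snd X (Y.prod Z) ≫ fst Y Z))
      (hasDegree_push _ hod), huniq hz hz1 (hmem (f ≫ snd X (Y.prod Z) ≫ snd Y Z))
      (hasDegree_push _ hod)]
    exact h3
  exact LinearMap.eqOn_span (f := dec x y z)
    (g := (LinearMap.id : C.A (X.prod (Y.prod Z)) →ₗ[ℚ] C.A (X.prod (Y.prod Z)))) key h

/-- A one-cycle on `X × Y × Z` is zero if its push-forwards to `X × Y`, `X × Z`, `Y × Z` are. -/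
theorem three (hd : IsDom C) (hP : CurveProperties C) {a : C.A (X.prod (Y.prod Z))}
    (ha : C.Deg (((X.prod (Y.prod Z)).dim : ℤ) - 1) a) (h12 : C.push (u12 X Y Z) a = 0)
    (h13 : C.push (u13 X Y Z) a = 0) (h23 : C.push (snd X (Y.prod Z)) a = 0) : a = 0 := by
  have hz : ∀ X : 𝒱.Obj, ∃ o : C.A X, C.Deg X.dim o ∧ HasDegree C o 1 := by
    intro X
    obtain ⟨o, ho, h1, h2⟩ := hC.exists_deg_one X
    exact ⟨o, ho, fun Y => by rw [one_smul]; exact ⟨h2 Y, h1 Y⟩⟩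
  obtain ⟨x, hx, hx1⟩ := hz X
  obtain ⟨y, hy, hy1⟩ := hz Y
  obtain ⟨z, hz, hz1⟩ := hz Z
  have h := dec_eq hd hP hx hx1 hy hy1 hz hz1 ha
  have h1 : C.push (fst X (Y.prod Z)) a = 0 := by
    have e : fst X (Y.prod Z) = u12 X Y Z ≫ fst X Y := by simp
    rw [e, C.push_comp, h12, map_zero]
  have h2 : C.push (snd X (Y.prod Z) ≫ fst Y Z) a = 0 := by rw [C.push_comp, h23, map_zero]
  have h3 : C.push (snd X (Y.prod Z) ≫ snd Y Z) a = 0 := by rw [C.push_comp, h23, map_zero]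
  rw [dec_apply, h12, h13, h23, h1, h2, h3] at h
  simp only [map_zero, zero_mul, mul_zero, add_zero, sub_zero] at h
  exact h.symm

end chow

end Pool.Agent.X308.V
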